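import Pool.Agent.W722.Cq.A6a

/-!
# Project CQ: A6, Hopf type estimate
-/

set_option autoImplicit false

open Metric Set Filter Topology Asymptotics

namespace Pool.Agent.W722.Cq

theorem line_disc {n k m : ℕ} {D : Set (V n)} {p : V n} {Φ : EE k → V n} {Ψ : V n → EE k}
    {P : ℂ → ℝ} {C c : ℝ} (hS : Sit m D p Φ Ψ P C c) {h : V n → V n} {ε R : ℝ}
    (hh : DifferentiableOn ℂ h (ball 0 (1 - ε))) (hR : R < 1 - ε)
    (hloc : ∀ ζ : V n, ‖ζ‖ ≤ R → ‖Ψ (h ζ)‖ < c ∧ Φ (Ψ (h ζ)) = h ζ) {e : V n} (he : ‖e‖ = 1) :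
    DifferentiableOn ℂ (fun l : ℂ => Ψ (h (l • e))) (ball 0 R) := by
  intro l hl
  have hle : ‖l • e‖ < R := by rw [norm_smul, he, mul_one]; exact mem_ball_zero_iff.1 hl
  obtain ⟨h1, h2⟩ := hloc (l • e) hle.le
  have h3 : DifferentiableAt ℂ h (l • e) :=
    hh.differentiableAt (isOpen_ball.mem_nhds (mem_ball_zero_iff.2 (hle.trans hR)))
  have h4 : DifferentiableAt ℂ Ψ (h (l • e)) := by
    rw [← h2]; exact (hS.inv1 _ h1).2.2
  have h5 : DifferentiableAt ℂ (fun l : ℂ => l • e) l := by fun_prop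
  exact ((h4.comp (l • e) h3).comp l h5).differentiableWithinAt

theorem A6 (hPOL : S_POL) (hSMC : S_SMC) (hHAD : S_HAD) (hA2 : S_A2) : S_A6 := by
  intro n k m D p Φ Ψ P C c C2 hS hC2
  have hm : 2 ≤ m := hS.two
  obtain ⟨hPs, CP, hCP, -, hPl⟩ := hPOL m P (by omega) hS.pol
  have hPc : ContDiff ℝ 2 P := (contDiff_infty.1 hPs) 2
  obtain ⟨C4, τ4, hC4, hτ4, hA2'⟩ := hA2 n k m D p Φ Ψ P C c C2 hS hC2 (1 / 4) (by norm_num)
    (by norm_num)
  set K : ℝ := 48 * C4 + CP * 16 * 2 ^ (2 * m) * C4 with hK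
  have hK0 : 0 < K := by positivity
  set c6 : ℝ := min (1 / 16) (1 / (2 * K)) with hc6
  have hc60 : 0 < c6 := lt_min (by norm_num) (by positivity)
  have hc6a : c6 ≤ 1 / 16 := min_le_left _ _
  have hc6b : c6 ≤ 1 / (2 * K) := min_le_right _ _
  have hlog : 0 < Real.log (1 / c6) := by
    apply Real.log_pos
    rw [lt_div_iff₀ hc60]; linarith
  set κ : ℝ := min (1 / 2) (1 / (2 * Real.log (1 / c6))) with hκ
  have hκ0 : 0 < κ := lt_min (by norm_num) (by positivity)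
  have hκa : κ ≤ 1 / 2 := min_le_left _ _
  have hκb : κ ≤ 1 / (2 * Real.log (1 / c6)) := min_le_right _ _
  refine ⟨κ, hκ0, fun R ε' hR hR1 hε' => ?_⟩
  set R1 : ℝ := (1 + R) / 2 with hR1d
  have hRR1 : R < R1 := by rw [hR1d]; linarith
  have hR11 : R1 < 1 := by rw [hR1d]; linarith
  obtain ⟨CR, τR, hCR, hτR, hA2R⟩ := hA2 n k m D p Φ Ψ P C c C2 hS hC2 R1 (by linarith) hR11
  have hC : 0 < C := lt_of_lt_of_le one_pos hS.C1
  obtain ⟨ω, hω, hns⟩ := norm_small m (by omega) (μ := ε' / (C * CR)) (by positivity)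
  refine ⟨min (min τ4 τR) (min (min (1 - R1) (3 / 4)) (min (ω / CR) c)), ?_, ?_⟩
  · have := hS.c0
    refine lt_min (lt_min hτ4 hτR) (lt_min (lt_min (by linarith) (by norm_num)) (lt_min ?_ this))
    positivity
  intro ξ δ ε h hδ hδτ hξ hWξ hρ hε hετ hhd hhm hh0 ζ hζ
  set τ := min (min τ4 τR) (min (min (1 - R1) (3 / 4)) (min (ω / CR) c)) with hτ
  have q4 : τ ≤ τ4 := (min_le_left _ _).trans (min_le_left _ _)
  have qR : τ ≤ τR := (min_le_left _ _).trans (min_le_right _ _)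
  have q1 : τ ≤ 1 - R1 := (min_le_right _ _).trans ((min_le_left _ _).trans (min_le_left _ _))
  have q34 : τ ≤ 3 / 4 := (min_le_right _ _).trans ((min_le_left _ _).trans (min_le_right _ _))
  have qω : τ ≤ ω / CR := (min_le_right _ _).trans ((min_le_right _ _).trans (min_le_left _ _))
  have qc : τ ≤ c := (min_le_right _ _).trans ((min_le_right _ _).trans (min_le_right _ _))
  have hl4 := hA2' ξ δ ε h hδ (hδτ.trans_le q4) (hξ.trans_le q4) hWξ hε (hετ.trans_le q4)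
    hhd hhm hh0
  have hlR := hA2R ξ δ ε h hδ (hδτ.trans_le qR) (hξ.trans_le qR) hWξ hε (hετ.trans_le qR)
    hhd hhm hh0
  have hΨξ : Ψ (h 0) = ξ := by rw [hh0]; exact (hS.inv1 ξ (hξ.trans_le qc)).1
  -- bound A
  have hbound : ∀ ζ : V n, ‖ζ‖ ≤ R1 → rho0 P (Ψ (h ζ)) ≤ ε' * δ := by
    intro z hz
    obtain ⟨h1, h2, h3, -⟩ := hlR z hz
    have hzD : Φ (Ψ (h z)) ∈ D := by
      rw [h2]
      apply hhm
      rw [mem_ball_zero_iff]
      linarith
    have h4 := hS.inside _ h1 hzD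
    have h5 : ‖Ψ (h z)‖ ≤ ε' / (C * CR) := by
      apply hns
      refine h3.trans ?_
      calc CR * δ ≤ CR * (ω / CR) := by gcongr; exact hδτ.le.trans qω
        _ = ω := by field_simp
    calc rho0 P (Ψ (h z)) ≤ C * ‖Ψ (h z)‖ * Wt m (Ψ (h z)) := h4
      _ ≤ C * (ε' / (C * CR)) * (CR * δ) := by
          apply mul_le_mul _ h3 (Wt_nonneg _ _) (by positivity)
          gcongr
      _ = ε' * δ := by field_simp
  -- near the centre
  have hnear : ∀ (e : V n) (l : ℂ), ‖e‖ = 1 → ‖l‖ ≤ c6 → rho0 P (Ψ (h (l • e))) ≤ -(δ / 2) := by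
    intro e l he hl
    have hd := line_disc hS (R := 1 / 4) hhd (by linarith) (fun z hz => ⟨(hl4 z hz).1, (hl4 z hz).2.1⟩) he
    have hg := grad_est (m := m) (by omega) hCP hPl hC4 hδ hd (fun z hz => by
      have hz' : ‖z • e‖ ≤ 1 / 4 := by
        rw [norm_smul, he, mul_one]; exact (mem_ball_zero_iff.1 hz).le
      obtain ⟨-, -, h3, h5⟩ := hl4 _ hz'
      refine ⟨h3, ?_⟩
      rw [zero_smul, hΨξ]
      exact h5) (l := l) (by linarith)
    rw [zero_smul, hΨξ, hρ] at hg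
    have h1 := (abs_le.1 hg).2
    have h2 : K * ‖l‖ * δ ≤ δ / 2 := by
      calc K * ‖l‖ * δ ≤ K * (1 / (2 * K)) * δ := by gcongr; exact hl.trans hc6b
        _ = δ / 2 := by field_simp
    linarith
  -- reduce to a line
  obtain ⟨e, he, hζe⟩ : ∃ e : V n, ‖e‖ = 1 ∧ ζ = ((‖ζ‖ : ℝ) : ℂ) • e ∨ ζ = 0 := by
    by_cases h0 : ζ = 0
    · exact ⟨0, Or.inr h0⟩
    · refine ⟨((‖ζ‖⁻¹ : ℝ) : ℂ) • ζ, Or.inl ⟨?_, ?_⟩⟩
      · rw [norm_smul, Complex.norm_real, norm_inv, norm_norm, inv_mul_cancel₀ (norm_ne_zero_iff.2 h0)]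
      · rw [smul_smul, ← Complex.ofReal_mul, mul_inv_cancel₀ (norm_ne_zero_iff.2 h0)]
        simp
  swap
  · rename_i h0
    rw [h0, hΨξ, hρ, norm_zero, sub_zero]
    have : κ * δ * R ≤ (1 / 2) * δ * 1 := by gcongr
    have : 0 < ε' * δ := by positivity
    linarith
  have hline : ∀ l : ℂ, ‖l • e‖ = ‖l‖ := fun l => by rw [norm_smul, he, mul_one]
  have hnζ : ‖((‖ζ‖ : ℝ) : ℂ)‖ = ‖ζ‖ := by rw [Complex.norm_real, norm_norm]
  have hεδ : 0 < ε' * δ := by positivity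
  rcases le_or_gt ‖ζ‖ c6 with hc | hc
  · have h1 := hnear e ((‖ζ‖ : ℝ) : ℂ) he (by rw [hnζ]; exact hc)
    rw [← hζe] at h1
    have h2 : κ * δ * (R - ‖ζ‖) ≤ (1 / 2) * δ * 1 := by
      have h3 : R - ‖ζ‖ ≤ 1 := by have := norm_nonneg ζ; linarith
      have h4 : 0 ≤ R - ‖ζ‖ := by linarith
      gcongr
    linarith
  · -- annulus
    have hcR : c6 < R := hc.trans_le hζ
    have hd := line_disc hS (R := R1) hhd (by linarith) (fun z hz => ⟨(hlR z hz).1, (hlR z hz).2.1⟩) he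
    set f : ℂ → ℝ := fun l => rho0 P (Ψ (h (l • e))) with hf
    have hfc : ContinuousOn f (closedBall 0 R) := by
      have h1 : ContinuousOn (fun l : ℂ => Ψ (h (l • e))) (closedBall 0 R) :=
        hd.continuousOn.mono (closedBall_subset_ball hRR1)
      simp only [hf, rho0]
      exact ((Complex.continuous_re.comp_continuousOn h1.snd.snd).add
        (h1.snd.fst.norm.pow 2)).add (hPc.continuous.comp_continuousOn h1.fst)
    have h2 := hHAD f c6 R (ε' * δ) (-(δ / 2)) hc60 hcR hfc (fun l hl => by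
      exact submean hSMC hPc hS.pol.sub hd (ball_subset_ball hRR1.le hl)) (fun l hl => by
      exact hbound (l • e) (by rw [hline, hl]; exact hRR1.le)) (fun l hl => by
      exact hnear e l he hl.le) ((‖ζ‖ : ℝ) : ℂ) (by rw [hnζ]; exact hc.le) (by rw [hnζ]; exact hζ)
    simp only [hf] at h2
    rw [← hζe, hnζ] at h2
    have hζ0 : 0 < ‖ζ‖ := hc60.trans hc
    have hlR1 : R - ‖ζ‖ ≤ Real.log (R / ‖ζ‖) := by
      have h3 := Real.one_sub_inv_le_log_of_pos (show 0 < R / ‖ζ‖ by positivity)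
      rw [inv_div] at h3
      have h4 : ‖ζ‖ / R * 1 ≥ 0 := by positivity
      have h5 : R - ‖ζ‖ ≤ 1 - ‖ζ‖ / R := by
        have h6 : ‖ζ‖ / R ≤ 1 := (div_le_one hR).2 hζ
        have h7 : R - ‖ζ‖ = R * (1 - ‖ζ‖ / R) := by field_simp
        rw [h7]
        nlinarith
      linarith
    have hlc : Real.log (R / c6) ≤ Real.log (1 / c6) := by
      apply Real.log_le_log (by positivity)
      gcongr
    have hlc0 : 0 < Real.log (R / c6) := by
      apply Real.log_pos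
      rw [lt_div_iff₀ hc60]; linarith
    have hRζ : 0 ≤ R - ‖ζ‖ := by linarith
    have h6 : κ * (R - ‖ζ‖) ≤ (1 / 2) * (Real.log (R / ‖ζ‖) / Real.log (R / c6)) := by
      calc κ * (R - ‖ζ‖) ≤ 1 / (2 * Real.log (1 / c6)) * (R - ‖ζ‖) := by gcongr
        _ = (1 / 2) * ((R - ‖ζ‖) / Real.log (1 / c6)) := by field_simp
        _ ≤ (1 / 2) * (Real.log (R / ‖ζ‖) / Real.log (R / c6)) := by
            gcongr
            exact hRζ.trans hlR1
    have h7 : 0 ≤ Real.log (R / ‖ζ‖) / Real.log (R / c6) := by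
      have := hRζ.trans hlR1
      positivity
    have h8 := mul_le_mul_of_nonneg_left h6 hδ.le
    nlinarith [mul_nonneg hεδ.le h7]

end Pool.Agent.W722.Cq
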