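import Pool.Agent.W722.Cq.A7b

/-!
# Project CQ: assembly of A7
-/

set_option autoImplicit false

open Metric Set Filter Topology Asymptotics

namespace Pool.Agent.W722.Cq

theorem A7 (hPOL : S_POL) (hK : S_K) (hSS : S_SS) (hA2 : S_A2) (hA6 : S_A6) : S_A7 := by
  intro n k m D p Φ Ψ P C c C2 hS hC2
  have hm : 2 ≤ m := hS.two
  obtain ⟨-, CP, hCP, -, hPl⟩ := hPOL m P (by omega) hS.pol
  obtain ⟨κ, hκ, hA6'⟩ := hA6 n k m D p Φ Ψ P C c C2 hS hC2
  obtain ⟨C4, τ4, hC4, hτ4, hA2'⟩ := hA2 n k m D p Φ Ψ P C c C2 hS hC2 (1 / 4) (by norm_num)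
    (by norm_num)
  -- universal small constant
  set c' : ℝ := min 1 (1 / (CP * 2 ^ (2 * m + 1))) with hc'
  have hc'0 : 0 < c' := lt_min one_pos (by positivity)
  have hc'1 : c' ≤ 1 := min_le_left _ _
  have hc'2 : CP * 2 ^ (2 * m + 1) * c' ≤ 1 := by
    have : c' ≤ 1 / (CP * 2 ^ (2 * m + 1)) := min_le_right _ _
    calc CP * 2 ^ (2 * m + 1) * c' ≤ CP * 2 ^ (2 * m + 1) * (1 / (CP * 2 ^ (2 * m + 1))) := by
          gcongr
      _ = 1 := by field_simp
  set K : ℝ := 1 + 2 / κ with hKdef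
  have hK0 : 0 < K := by positivity
  set C4' : ℝ := max 1 C4 with hC4'
  set C3 : ℝ := max (2 * Real.sqrt (K / c')) (16 * C4') with hC3
  have hC4'1 : 1 ≤ C4' := le_max_left _ _
  have hC3pos : 0 < C3 := lt_of_lt_of_le (by positivity : (0:ℝ) < 16 * C4') (le_max_right _ _)
  refine ⟨C3, hC3pos, fun η hη hη1 => ?_⟩
  -- geometry of the rectangle
  set L : ℝ := 2 / η + 1 with hL
  have hηL : η * L = 2 + η := by rw [hL]; field_simp
  have hL3 : 3 ≤ L := by
    have : 2 ≤ 2 / η := by rw [le_div_iff₀ hη]; linarith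
    linarith
  set ϱ : ℝ := L - η / 2 with hϱ
  have hϱ0 : 0 < ϱ := by rw [hϱ]; linarith
  set θ : ℝ := Real.sqrt ((L - η) ^ 2 + 1) / ϱ with hθ
  have hθϱ : θ * ϱ = Real.sqrt ((L - η) ^ 2 + 1) := by rw [hθ]; field_simp
  have hθ0 : 0 < θ := by rw [hθ]; positivity
  have hθ1 : θ < 1 := by
    rw [hθ, div_lt_one hϱ0, Real.sqrt_lt' hϱ0, hϱ]
    nlinarith
  obtain ⟨R0, hR0, hSS'⟩ := hSS θ hθ0 hθ1
  set R : ℝ := max (max ((1 + R0) / 2) (1 - η)) (1 / 2) with hR
  have hR1 : R < 1 := max_lt (max_lt (by linarith) (by linarith)) (by norm_num)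
  have hRhalf : 1 / 2 ≤ R := le_max_right _ _
  have hRη : 1 - η ≤ R := (le_max_right _ _).trans (le_max_left _ _)
  have hR0R : R0 < R := lt_of_lt_of_le (by linarith) ((le_max_left _ _).trans (le_max_left _ _))
  obtain ⟨τ6, hτ6, hA6''⟩ := hA6' R η (by linarith) hR1 hη
  obtain ⟨τD, hτD, hin⟩ := inD hS hCP hPl hC2 hc'0 hc'2 hc'1 (B := 2 * L + 4) (η := η / 2)
    (by linarith) (by linarith)
  refine ⟨min (min τ4 τ6) (min τD (min (1 - R) (min (1 / 2) c))), ?_, ?_⟩
  · have := hS.c0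
    exact lt_min (lt_min hτ4 hτ6) (lt_min hτD (lt_min (by linarith) (lt_min (by norm_num) this)))
  intro ξ δ ε g hδ hδτ hξ hξ2 hWξ hρ hε hετ hg hginj hgm hg0 hgsub
  have q4 := (min_le_left (min τ4 τ6) (min τD (min (1 - R) (min (1 / 2) c)))).trans (min_le_left _ _)
  have q6 := (min_le_left (min τ4 τ6) (min τD (min (1 - R) (min (1 / 2) c)))).trans (min_le_right _ _)
  have qD := (min_le_right (min τ4 τ6) (min τD (min (1 - R) (min (1 / 2) c)))).trans (min_le_left _ _)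
  have qR := ((min_le_right (min τ4 τ6) (min τD (min (1 - R) (min (1 / 2) c)))).trans
    (min_le_right _ _)).trans (min_le_left _ _)
  have qh := (((min_le_right (min τ4 τ6) (min τD (min (1 - R) (min (1 / 2) c)))).trans
    (min_le_right _ _)).trans (min_le_right _ _)).trans (min_le_left _ _)
  have qc := (((min_le_right (min τ4 τ6) (min τD (min (1 - R) (min (1 / 2) c)))).trans
    (min_le_right _ _)).trans (min_le_right _ _)).trans (min_le_right _ _)
  have hin' := hin ξ δ hδ (hδτ.trans_le qD) (hξ.trans_le qD) hξ2 hWξ hρ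
  -- the inverse
  obtain ⟨h, hhd, hhm, hhinv⟩ := exists_inverse' hS.opn hg hginj hgsub
  have hξD : Φ ξ ∈ D := by
    have := (hin' (-1) 0 (by simp; linarith) (by simp; linarith)
      (by rw [norm_zero, zero_pow (by omega)]; simp; positivity)).2
    rwa [pt_zero] at this
  have hε1 : ε < 1 / 2 := hετ.trans_le qh
  have hh0 : h 0 = Φ ξ := by
    have := hhinv (Φ ξ) hξD (by rw [hg0, norm_zero]; linarith)
    rwa [hg0] at this
  -- points of the path
  have hpath : ∀ w : ℂ, ‖w + 1‖ ≤ 2 * L + 4 → w.re ≤ -(η / 2) →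
      ‖pt ξ δ w 0‖ < c ∧ Φ (pt ξ δ w 0) ∈ D := fun w h1 h2 =>
    hin' w 0 h1 h2 (by
      rw [norm_zero, zero_pow (by omega)]
      have : 0 < -w.re := by linarith
      positivity)
  have hopen : IsOpen {z : EE k | Φ z ∈ D} := hS.opn.preimage hS.hol.continuous
  have hcomp : DifferentiableOn ℂ (fun z => g (Φ z)) {z : EE k | Φ z ∈ D} :=
    hg.comp (hS.hol.differentiable (by simp)).differentiableOn (fun z hz => hz)
  refine ⟨ff m g Φ ξ δ, ?_, ?_, ?_⟩
  · -- holomorphic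
    have h1 : DifferentiableOn ℂ (fun z => fderiv ℂ (fun z => g (Φ z)) z (e1 k))
        {z : EE k | Φ z ∈ D} :=
      Pool.Agent.Helper540.differentiableOn_fderiv_apply hopen hcomp (e1 k)
    have hmaps : MapsTo (fun w : ℂ => pt ξ δ w 0)
        {w : ℂ | -3 < w.re ∧ w.re < -(η / 2) ∧ |w.im| < 2} {z : EE k | Φ z ∈ D} := ?_
    · exact (h1.comp (pt_diff ξ δ).differentiableOn hmaps).const_smul
        (((δ : ℝ) ^ ((1 : ℝ) / (2 * m)) : ℝ) : ℂ)
    intro w hw
    obtain ⟨h3, h4, h5⟩ := hw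
    refine (hpath w ?_ h4.le).2
    have e : ‖w + 1‖ ≤ |(w + 1).re| + |(w + 1).im| := Complex.norm_le_abs_re_add_abs_im _
    rw [Complex.add_re, Complex.add_im, Complex.one_re, Complex.one_im, add_zero] at e
    have : |w.re + 1| ≤ 2 := abs_le.2 ⟨by linarith, by linarith⟩
    linarith
  · -- upper bound
    intro w hw1 hw2 hw3
    have hRe : ∀ ζ ∈ ball (-(L : ℂ)) ϱ, ζ.re ≤ -(η / 2) ∧ ‖ζ + 1‖ ≤ 2 * L + 4 := by
      intro ζ hζ
      rw [mem_ball, dist_eq_norm, sub_neg_eq_add] at hζ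
      constructor
      · have h1 : |(ζ + L).re| ≤ ‖ζ + L‖ := Complex.abs_re_le_norm _
        rw [Complex.add_re, Complex.ofReal_re] at h1
        have := le_abs_self (ζ.re + L)
        rw [hϱ] at hζ
        linarith
      · have e : ζ + 1 = (ζ + L) + ((1 - L : ℝ) : ℂ) := by push_cast; ring
        rw [e]
        refine (norm_add_le _ _).trans ?_
        rw [Complex.norm_real, Real.norm_eq_abs, abs_sub_comm, abs_of_nonneg (by linarith)]
        rw [hϱ] at hζ
        linarith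
    have hφd : DifferentiableOn ℂ (phi g Φ ξ δ) (ball (-(L : ℂ)) ϱ) := by
      refine hcomp.comp (pt_diff ξ δ).differentiableOn ?_
      intro ζ hζ
      obtain ⟨h1, h2⟩ := hRe ζ hζ
      exact (hpath ζ h2 h1).2
    have hφb : ∀ ζ ∈ ball (-(L : ℂ)) ϱ, ‖phi g Φ ξ δ ζ‖ ≤ 1 := by
      intro ζ hζ
      obtain ⟨h1, h2⟩ := hRe ζ hζ
      exact (mem_ball_zero_iff.1 (hgm (hpath ζ h2 h1).2)).le
    have hsq1 : 0 ≤ L - η := by linarith
    have hm1 : (-1 : ℂ) ∈ closedBall (-(L : ℂ)) (θ * ϱ) := by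
      rw [mem_closedBall, dist_eq_norm, hθϱ]
      have e : (-1 : ℂ) - -(L : ℂ) = ((L - 1 : ℝ) : ℂ) := by push_cast; ring
      rw [e, Complex.norm_real, Real.norm_of_nonneg (by linarith)]
      apply Real.le_sqrt_of_sq_le
      nlinarith
    have hwm : w ∈ closedBall (-(L : ℂ)) (θ * ϱ) := by
      rw [mem_closedBall, dist_eq_norm, hθϱ, sub_neg_eq_add]
      apply Real.le_sqrt_of_sq_le
      rw [← Complex.normSq_eq_norm_sq, Complex.normSq_apply]
      simp only [Complex.add_re, Complex.add_im, Complex.ofReal_re, Complex.ofReal_im, add_zero]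
      have h1 : w.im * w.im ≤ 1 := by
        have := abs_le.1 hw3
        nlinarith
      have h2 : (w.re + L) * (w.re + L) ≤ (L - η) ^ 2 := by nlinarith
      linarith
    have hφw := hSS' n (phi g Φ ξ δ) (-(L : ℂ)) ϱ hϱ0 hφd hφb (-1) hm1
      (by simp only [phi, pt_zero]; exact hg0) w hwm
    -- A6
    have hwp : ‖w + 1‖ ≤ 2 * L + 4 := by
      have e : ‖w + 1‖ ≤ |(w + 1).re| + |(w + 1).im| := Complex.norm_le_abs_re_add_abs_im _
      rw [Complex.add_re, Complex.add_im, Complex.one_re, Complex.one_im, add_zero] at e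
      have : |w.re + 1| ≤ 2 := abs_le.2 ⟨by linarith, by linarith⟩
      linarith
    obtain ⟨hwc, hwD⟩ := hpath w hwp (by linarith)
    have hφlt : ‖phi g Φ ξ δ w‖ < 1 - ε := by
      have : ε < 1 - R := hετ.trans_le qR
      linarith
    have hhφ : h (phi g Φ ξ δ w) = Φ (pt ξ δ w 0) := hhinv _ hwD hφlt
    have h6 := hA6'' ξ δ ε h hδ (hδτ.trans_le q6) (hξ.trans_le q6) hWξ hρ hε (hετ.trans_le q6)
      hhd hhm hh0 (phi g Φ ξ δ w) (hφw.trans hR0R.le)
    rw [hhφ, (hS.inv1 _ hwc).1, rho0_pt P ξ δ w 0 hρ, add_zero, sub_self, add_zero] at h6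
    have h7 : κ * (R - ‖phi g Φ ξ δ w‖) ≤ -w.re + η := by
      have : δ * (κ * (R - ‖phi g Φ ξ δ w‖)) ≤ δ * (-w.re + η) := by nlinarith
      exact le_of_mul_le_mul_left this hδ
    have h8 : 1 - ‖phi g Φ ξ δ w‖ ≤ K * (-w.re) := by
      have h9 : R - ‖phi g Φ ξ δ w‖ ≤ (-w.re + η) / κ := by
        rw [le_div_iff₀ hκ]; linarith
      have h10 : (-w.re + η) / κ ≤ 2 / κ * (-w.re) := by
        rw [div_mul_eq_mul_div]
        apply div_le_div_of_nonneg_right _ hκ.le
        linarith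
      rw [hKdef]
      have : 1 - R ≤ -w.re := by linarith
      nlinarith
    have h11 := upper_pt hS hK hg hgm hδ (t := -w.re) (by linarith) (by linarith) hc'0 hc'1 hK0
      (w := w) (fun ζ hζ => (hin' w ζ hwp (by linarith) hζ).2) h8
    refine h11.trans ?_
    gcongr
    · exact Real.rpow_nonneg (by linarith) _
    · exact le_max_left _ _
  · -- lower bound
    have h1 := lower_pt hS hg (h := h) (ε := ε) (C4 := C4') (hξ.trans_le qc) hδ hC4'1 hε hε1 hξD
      hg0 hhd hhinv (fun ζ hζ => by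
        obtain ⟨a1, a2, a3, -⟩ := hA2' ξ δ ε h hδ (hδτ.trans_le q4) (hξ.trans_le q4) hWξ hε
          (hετ.trans_le q4) hhd hhm hh0 ζ hζ
        exact ⟨a1, a2, a3.trans (by gcongr; exact le_max_right _ _)⟩)
    refine h1.trans ?_
    gcongr
    exact le_max_right _ _

end Pool.Agent.W722.Cq
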