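import Pool.Agent.W722.Cq.Stm

/-!
# Project CQ: assembly of the normal form
-/

set_option autoImplicit false

open Metric Set Filter Topology Asymptotics

namespace Pool.Agent.W722.Cq

theorem Pure_mono {N m : ℕ} {f : ℂ → ℝ} (h : Pure N f) (hmN : m ≤ N) : Pure m f := by
  obtain ⟨c, hc⟩ := h
  refine ⟨c, ?_⟩
  have h1 : (fun x : ℂ => ‖x‖ ^ (N + 1)) =O[𝓝 (0 : ℂ)] (fun x => ‖x‖ ^ (m + 1)) := by
    refine IsBigO.of_bound 1 ?_
    filter_upwards [ball_mem_nhds (0 : ℂ) one_pos] with x hx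
    rw [one_mul, norm_pow, norm_pow, norm_norm]
    exact pow_le_pow_of_le_one (norm_nonneg _) (mem_ball_zero_iff.1 hx).le (by omega)
  have h2 : (fun x => Mx N c x - Mx m c x) =O[𝓝 (0 : ℂ)] (fun x => ‖x‖ ^ (m + 1)) := by
    set S : ℝ := ∑ a ∈ Finset.Icc 1 N, ∑ b ∈ Finset.Icc 1 N, ‖c a b‖ with hS
    refine IsBigO.of_bound S ?_
    filter_upwards [ball_mem_nhds (0 : ℂ) one_pos] with x hx
    have hx1 : ‖x‖ ≤ 1 := (mem_ball_zero_iff.1 hx).le
    have e : Mx N c x - Mx m c x = (∑ a ∈ Finset.Icc 1 N, ∑ b ∈ Finset.Icc 1 N,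
        (if a ≤ m ∧ b ≤ m then 0 else c a b * x ^ a * (starRingEnd ℂ x) ^ b)).re := by
      have e1 : ∑ a ∈ Finset.Icc 1 m, ∑ b ∈ Finset.Icc 1 m, c a b * x ^ a * (starRingEnd ℂ x) ^ b =
          ∑ a ∈ Finset.Icc 1 N, ∑ b ∈ Finset.Icc 1 N,
          (if a ≤ m ∧ b ≤ m then c a b * x ^ a * (starRingEnd ℂ x) ^ b else 0) := by
        have hsub : Finset.Icc 1 m ⊆ Finset.Icc 1 N := Finset.Icc_subset_Icc_right hmN
        symm
        rw [← Finset.sum_subset hsub]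
        · refine Finset.sum_congr rfl fun a ha => ?_
          rw [← Finset.sum_subset hsub]
          · refine Finset.sum_congr rfl fun b hb => ?_
            rw [if_pos ⟨(Finset.mem_Icc.1 ha).2, (Finset.mem_Icc.1 hb).2⟩]
          · intro b hb hb2
            rw [if_neg]
            rintro ⟨_, h4⟩
            exact hb2 (Finset.mem_Icc.2 ⟨(Finset.mem_Icc.1 hb).1, h4⟩)
        · intro a ha ha2
          refine Finset.sum_eq_zero fun b _ => ?_
          rw [if_neg]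
          rintro ⟨h4, _⟩
          exact ha2 (Finset.mem_Icc.2 ⟨(Finset.mem_Icc.1 ha).1, h4⟩)
      unfold Mx
      rw [← Complex.sub_re, e1, ← Finset.sum_sub_distrib]
      congr 1
      refine Finset.sum_congr rfl fun a _ => ?_
      rw [← Finset.sum_sub_distrib]
      refine Finset.sum_congr rfl fun b _ => ?_
      split_ifs <;> simp
    rw [e, Real.norm_eq_abs]
    refine (Complex.abs_re_le_norm _).trans ?_
    refine (norm_sum_le _ _).trans ?_
    rw [hS, Finset.sum_mul]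
    refine Finset.sum_le_sum fun a ha => ?_
    refine (norm_sum_le _ _).trans ?_
    rw [Finset.sum_mul]
    refine Finset.sum_le_sum fun b hb => ?_
    rw [norm_pow, norm_norm]
    split_ifs with h
    · rw [norm_zero]; positivity
    · rw [norm_mul, norm_mul, norm_pow, norm_pow, RCLike.norm_conj, mul_assoc, ← pow_add]
      have : m + 1 ≤ a + b := by
        have h1 := (Finset.mem_Icc.1 ha).1
        have h2 := (Finset.mem_Icc.1 hb).1
        by_contra hcon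
        exact h ⟨by omega, by omega⟩
      gcongr ‖c a b‖ * ?_
      exact pow_le_pow_of_le_one (norm_nonneg _) hx1 this
  have h3 := (hc.trans h1).add h2
  refine h3.congr_left fun x => ?_
  ring

theorem line_hasFDerivAt {k : ℕ} (x : ℂ) :
    HasFDerivAt (fun x : ℂ => ((x, 0, 0) : EE k)) (ContinuousLinearMap.inl ℝ ℂ (V k × ℂ)) x := by
  have : (fun x : ℂ => ((x, 0, 0) : EE k)) = (ContinuousLinearMap.inl ℝ ℂ (V k × ℂ)) := by
    ext x <;> simp
  rw [this]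
  exact (ContinuousLinearMap.inl ℝ ℂ (V k × ℂ)).hasFDerivAt

theorem cur_fderiv {k : ℕ} {r : EE k → ℝ} (hr : ContDiff ℝ ((⊤ : ℕ∞) : WithTop ℕ∞) r) (x v : ℂ) :
    fderiv ℝ (cur r) x v = fderiv ℝ r (x, 0, 0) (v, 0, 0) := by
  have h1 : HasFDerivAt r (fderiv ℝ r (x, 0, 0)) (x, 0, 0) :=
    (hr.differentiable (by simp) _).hasFDerivAt
  have h2 := h1.comp x (line_hasFDerivAt (k := k) x)
  have h3 : cur r = r ∘ (fun x : ℂ => ((x, 0, 0) : EE k)) := rfl
  rw [h3, h2.fderiv]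
  rfl

theorem cur_lap {k : ℕ} {r : EE k → ℝ} (hr : ContDiff ℝ ((⊤ : ℕ∞) : WithTop ℕ∞) r) (x : ℂ) :
    Lap (cur r) x = LvE r (x, 0, 0) (1, 0, 0) := by
  have hr1 : ContDiff ℝ ((⊤ : ℕ∞) : WithTop ℕ∞) (fderiv ℝ r) :=
    hr.fderiv_right (m := ((⊤ : ℕ∞) : WithTop ℕ∞)) (by simp)
  have key : ∀ v u : ℂ, fderiv ℝ (fderiv ℝ (cur r)) x v u =
      fderiv ℝ (fderiv ℝ r) (x, 0, 0) (v, 0, 0) (u, 0, 0) := by
    intro v u
    have h1 : HasFDerivAt (fderiv ℝ r) (fderiv ℝ (fderiv ℝ r) (x, 0, 0)) (x, 0, 0) :=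
      (hr1.differentiable (by simp) _).hasFDerivAt
    have h2 := h1.comp x (line_hasFDerivAt (k := k) x)
    have hcurd : DifferentiableAt ℝ (fderiv ℝ (cur r)) x := by
      have : ContDiff ℝ ((⊤ : ℕ∞) : WithTop ℕ∞) (cur r) := by
        unfold cur
        fun_prop
      exact ((this.fderiv_right (m := ((⊤ : ℕ∞) : WithTop ℕ∞)) (by simp)).differentiable
        (by simp)) x
    have h3 : HasFDerivAt (fun y => fderiv ℝ (cur r) y u)
        ((ContinuousLinearMap.apply ℝ ℝ u).comp (fderiv ℝ (fderiv ℝ (cur r)) x)) x :=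
      (ContinuousLinearMap.apply ℝ ℝ u).hasFDerivAt.comp x hcurd.hasFDerivAt
    have h4 : HasFDerivAt (fun y : ℂ => fderiv ℝ r (y, 0, 0) ((u, 0, 0) : EE k))
        ((ContinuousLinearMap.apply ℝ ℝ ((u, 0, 0) : EE k)).comp
          ((fderiv ℝ (fderiv ℝ r) (x, 0, 0)).comp (ContinuousLinearMap.inl ℝ ℂ (V k × ℂ)))) x :=
      (ContinuousLinearMap.apply ℝ ℝ ((u, 0, 0) : EE k)).hasFDerivAt.comp x h2
    have h5 : (fun y => fderiv ℝ (cur r) y u) =
        fun y : ℂ => fderiv ℝ r (y, 0, 0) ((u, 0, 0) : EE k) := by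
      funext y; exact cur_fderiv hr y u
    rw [h5] at h3
    have h6 := h3.unique h4
    exact congrArg (fun L : ℂ →L[ℝ] ℝ => L v) h6
  unfold Lap LvE
  rw [key, key]
  congr 2
  · congr 1
    · ext <;> simp
  · ext <;> simp

theorem NFthm (hPSC : S_PSC) (hLVC : S_LVC) (hLIN : S_LIN) (hQUAD : S_QUAD) (hNFN : S_NFN)
    (hDER : S_DER) (hLOW : S_LOW) (hHOM : S_HOM) (hRV : S_RV) (hT2 : S_T2) (hASN : S_ASN) :
    S_NF := by
  intro n U r p W v h2 hU hpU hr hrp hdr hWdim hWpos hv hv1 hv2 hvL hpsc hft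
  have hPsc : Psc r p := hPSC n U r p hU hpU hr hrp hdr hpsc
  obtain ⟨k, A, hA1, hA2⟩ := hLIN n r p W v h2 hr hdr hWdim hWpos hv hv1 hv2 hvL
  obtain ⟨Φ₀, hΦ₀, hΦ₀0, hinv₀, hNrm₀⟩ := hQUAD n k r p A hr hrp hA1 hA2
  obtain ⟨M, hM⟩ := hft
  obtain ⟨Θ, hΘ, hΘ0, hΘinv, hNrm, hcur, hRc⟩ := hNFN k (fun z => r (Φ₀ z)) hNrm₀ (M + 2)
  set Φ : EE k → V n := fun z => Φ₀ (Θ z) with hΦdef
  have hΦ : ContDiff ℂ ((⊤ : ℕ∞) : WithTop ℕ∞) Φ := hΦ₀.comp hΘ
  have hΦ0 : Φ 0 = p := by simp only [hΦdef]; rw [hΘ0, hΦ₀0]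
  have hinv : (fderiv ℂ Φ 0).IsInvertible := by
    have h1 : fderiv ℂ Φ 0 = (fderiv ℂ Φ₀ (Θ 0)).comp (fderiv ℂ Θ 0) :=
      fderiv_comp (g := Φ₀) (f := Θ) (0 : EE k) (hΦ₀.differentiable (by simp) _)
        (hΘ.differentiable (by simp) _)
    rw [h1, hΘ0]
    exact hinv₀.comp hΘinv
  obtain ⟨hrs, hrd, hrL, hrP⟩ := hLVC n k r Φ hr hΦ
  set rh : EE k → ℝ := fun z => r (Φ z) with hrh
  have hPE : PscE rh := hrP (by rw [hΦ0]; exact hPsc)
  have hcurs : ContDiff ℝ ((⊤ : ℕ∞) : WithTop ℕ∞) (cur rh) := by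
    unfold cur
    fun_prop
  obtain ⟨hD1, hD2⟩ := hDER (cur rh) hcurs
  -- finite type
  have hnot : ¬ cur rh =O[𝓝 (0 : ℂ)] (fun x => ‖x‖ ^ (M + 1)) := by
    intro hcon
    have h1 := (hD1 M hcon).1
    have hγd : Differentiable ℂ (fun x : ℂ => Φ (x, 0, 0)) := by
      have h5 : Differentiable ℂ (fun x : ℂ => ((x, 0, 0) : EE k)) := by fun_prop
      exact (hΦ.differentiable (by simp)).comp h5
    have hγ' : deriv (fun x : ℂ => Φ (x, 0, 0)) 0 = fderiv ℂ Φ 0 (1, 0, 0) := by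
      have h6 : HasDerivAt (fun x : ℂ => ((x, 0, 0) : EE k)) (1, 0, 0) 0 := by
        have h7 : HasDerivAt (fun x : ℂ => (0 : EE k) + x • ((1, 0, 0) : EE k)) (1, 0, 0) 0 := by
          have := ((hasDerivAt_id (0 : ℂ)).smul_const ((1, 0, 0) : EE k)).const_add (0 : EE k)
          simpa using this
        have h8 : (fun x : ℂ => (0 : EE k) + x • ((1, 0, 0) : EE k)) =
            fun x : ℂ => ((x, 0, 0) : EE k) := by
          funext x
          ext <;> simp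
        rwa [h8] at h7
      have h9 : HasFDerivAt Φ (fderiv ℂ Φ 0) ((0, 0, 0) : EE k) :=
        (hΦ.differentiable (by simp) _).hasFDerivAt
      exact (h9.comp_hasDerivAt (0 : ℂ) h6).deriv
    obtain ⟨j, hj1, hj2⟩ := hM (fun x => Φ (x, 0, 0)) hγd hΦ0 (by
      rw [hγ']
      obtain ⟨e, he⟩ := hinv
      rw [← he]
      intro hcon2
      have : ((1, 0, 0) : EE k) = 0 := e.injective (by rw [map_zero]; exact hcon2)
      have h10 := congrArg Prod.fst this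
      simp at h10)
    exact hj2 (h1 j hj1)
  obtain ⟨d, c, hd2, hdM, hne, hO⟩ := hLOW (cur rh) (M + 3) M (by omega) hcur hnot
  -- orders
  have hHmO : (fun x => Hm d c x) =O[𝓝 (0 : ℂ)] (fun x => ‖x‖ ^ d) := by
    refine IsBigO.of_bound (∑ a ∈ Finset.Ioo 0 d, ‖c a‖) (Eventually.of_forall fun x => ?_)
    unfold Hm
    rw [Real.norm_eq_abs, norm_pow, norm_norm]
    refine (Complex.abs_re_le_norm _).trans ((norm_sum_le _ _).trans ?_)
    rw [Finset.sum_mul]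
    refine Finset.sum_le_sum fun a ha => ?_
    obtain ⟨h3, h4⟩ := Finset.mem_Ioo.1 ha
    rw [norm_mul, norm_mul, norm_pow, norm_pow, RCLike.norm_conj, mul_assoc, ← pow_add,
      Nat.add_sub_cancel' h4.le]
  have hpowle : ∀ a b : ℕ, a ≤ b →
      (fun x : ℂ => ‖x‖ ^ b) =O[𝓝 (0 : ℂ)] (fun x => ‖x‖ ^ a) := by
    intro a b hab
    refine IsBigO.of_bound 1 ?_
    filter_upwards [ball_mem_nhds (0 : ℂ) one_pos] with x hx
    rw [one_mul, norm_pow, norm_pow, norm_norm]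
    exact pow_le_pow_of_le_one (norm_nonneg _) (mem_ball_zero_iff.1 hx).le hab
  have hcurO : cur rh =O[𝓝 (0 : ℂ)] (fun x => ‖x‖ ^ d) := by
    have := (hO.trans (hpowle d (d + 1) (by omega))).add hHmO
    refine this.congr_left fun x => ?_
    ring
  obtain ⟨d', rfl⟩ : ∃ d', d = d' + 1 := ⟨d - 1, by omega⟩
  have hfd : (fun x => fderiv ℝ (cur rh) x) =O[𝓝 (0 : ℂ)] (fun x => ‖x‖ ^ d') := (hD1 d' hcurO).2
  have hlap : ∃ C : ℝ, ∀ᶠ x in 𝓝 (0 : ℂ), -(C * ‖x‖ ^ (d' + 1 - 1)) ≤ Lap (cur rh) x := by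
    obtain ⟨K, ε, hK, hε, hpE⟩ := hPE
    obtain ⟨C1, hC1⟩ := (hcurO.trans (hpowle d' (d' + 1) (by omega))).bound
    obtain ⟨C2, hC2⟩ := hfd.bound
    refine ⟨K * C1 + K * (2 * C2), ?_⟩
    filter_upwards [ball_mem_nhds (0 : ℂ) hε, hC1, hC2] with x hx h3 h4
    have hx' : ‖((x, 0, 0) : EE k)‖ < ε := by
      have : ‖((x, 0, 0) : EE k)‖ = ‖x‖ := by simp [Prod.norm_def]
      rw [this]; exact mem_ball_zero_iff.1 hx
    have h5 := hpE (x, 0, 0) hx' (1, 0, 0)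
    rw [← cur_lap hrs, ← cur_fderiv hrs] at h5
    have e1 : Complex.I • ((1, 0, 0) : EE k) = (Complex.I, 0, 0) := by ext <;> simp
    rw [e1, ← cur_fderiv hrs] at h5
    have e2 : ‖((1, 0, 0) : EE k)‖ = 1 := by simp [Prod.norm_def]
    rw [e2] at h5
    rw [Real.norm_eq_abs, norm_pow, norm_norm] at h3
    rw [norm_pow, norm_norm] at h4
    have h6 : |fderiv ℝ (cur rh) x 1| ≤ C2 * ‖x‖ ^ d' := by
      have := (fderiv ℝ (cur rh) x).le_opNorm 1
      rw [norm_one, mul_one, Real.norm_eq_abs] at this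
      exact this.trans h4
    have h7 : |fderiv ℝ (cur rh) x Complex.I| ≤ C2 * ‖x‖ ^ d' := by
      have := (fderiv ℝ (cur rh) x).le_opNorm Complex.I
      rw [Complex.norm_I, mul_one, Real.norm_eq_abs] at this
      exact this.trans h4
    have h8 : rh (x, 0, 0) = cur rh x := rfl
    rw [h8] at h5
    rw [Nat.add_sub_cancel]
    have h9 := mul_le_mul_of_nonneg_left h3 hK.le
    have h10 := mul_le_mul_of_nonneg_left (add_le_add h6 h7) hK.le
    nlinarith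
  have hLapnn := hHOM.1 (cur rh) (d' + 1) c hd2 hcurs hO hlap
  -- parity
  have heven : Even (d' + 1) := by
    rw [← Nat.not_odd_iff_even]
    intro hodd
    obtain ⟨x, hx⟩ := hne
    exact hx (hHOM.2.2 (d' + 1) c hodd hLapnn x)
  obtain ⟨m, hm⟩ := heven
  have hdm : d' + 1 = 2 * m := by omega
  rw [hdm] at hO hne hLapnn hcurO hd2 hdM
  have hm1 : 1 ≤ m := by omega
  have hRcP : ∀ (y : V k) (σ : ℝ), Pure m (Rc rh y σ) := fun y σ =>
    Pure_mono (hRc y σ) (by omega)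
  have hRcO := hRV k rh m hm1 hNrm hPE hcurO hRcP
  -- m ≥ 2
  have hm2 : 2 ≤ m := by
    by_contra hcon
    have hm1' : m = 1 := by omega
    subst hm1'
    obtain ⟨e, he⟩ := hinv
    have hXv : fderiv ℂ Φ 0 (e.symm v) = v := by rw [← he]; simp
    have hX0 : e.symm v ≠ 0 := by
      intro h3
      apply hv
      rw [← hXv, h3, map_zero]
    have h4 : (e.symm v).2.2.re = 0 := by
      rw [← hNrm.d1, hrd 0, hXv]
      rw [hΦ0]; exact hv1
    have h5 : (e.symm v).2.2.im = 0 := by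
      have h6 := hNrm.d1 (Complex.I • e.symm v)
      rw [hrd 0, map_smul, hXv, hΦ0, hv2] at h6
      have h7 : (Complex.I • e.symm v).2.2.re = -(e.symm v).2.2.im := by simp
      rw [h7] at h6
      linarith
    have h8 := hT2 k rh c hNrm (by simpa using hO) (by simpa using hLapnn) (by simpa using hne)
      hRcO (e.symm v) hX0 (Complex.ext h4 h5)
    rw [hrL 0, hXv, hΦ0] at h8
    linarith
  refine ⟨k, m, Φ, Hm (2 * m) c, ?_⟩
  exact
    { two := hm2
      hol := hΦ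
      zero := hΦ0
      inv := hinv
      pol := ⟨⟨c, rfl⟩, hLapnn, hne⟩
      est := hASN k rh m (Hm (2 * m) c) hm1 hNrm hO hRcO }

end Pool.Agent.W722.Cq
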