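import Pool.Agent.W722.Cq.Stm
import Pool.Agent.W599.SQ.Psc

/-!
# Project CQ: local pseudoconvexity inequality (adapted from Pool.Agent.W599.SQ.Psc)
-/

set_option autoImplicit false

open Metric Set Filter Topology

namespace Pool.Agent.W722.Cq

open Pool.Agent.W737.SQ (H4 ell)
open Pool.Agent.W599.SQ.Psc

theorem dir_local {n : ℕ} {ρ : V n → ℝ} {p : V n} (h : fderiv ℝ ρ p ≠ 0) :
    ∃ e : V n, fderiv ℝ ρ p e = -1 := by
  obtain ⟨e0, he0⟩ : ∃ e0, fderiv ℝ ρ p e0 ≠ 0 := by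
    by_contra hcon
    push Not at hcon
    exact h (ContinuousLinearMap.ext hcon)
  refine ⟨(-(fderiv ℝ ρ p e0)⁻¹) • e0, ?_⟩
  rw [map_smul, smul_eq_mul, neg_mul, inv_mul_cancel₀ he0]

theorem bdry_local {n : ℕ} {U : Set (V n)} {ρ : V n → ℝ} {p e : V n} (hU : IsOpen U) (hpU : p ∈ U)
    (hsm : ContDiff ℝ ((⊤ : ℕ∞) : WithTop ℕ∞) ρ) (hρp : ρ p = 0) (he : fderiv ℝ ρ p e = -1) :
    ∃ K R : ℝ, 0 < K ∧ 0 < R ∧ ∀ z : V n, ‖z - p‖ < R →
      ∃ q ∈ U, ρ q = 0 ∧ ‖z - q‖ ≤ K * |ρ z| := by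
  have hρc : Continuous ρ := hsm.continuous
  have hρ1 : ContDiff ℝ ((⊤ : ℕ∞) : WithTop ℕ∞) (fderiv ℝ ρ) :=
    hsm.fderiv_right (by norm_cast)
  have hce : Continuous (fun z => fderiv ℝ ρ z e) := hρ1.continuous.clm_apply continuous_const
  obtain ⟨δ, hδ, hδb⟩ : ∃ δ > 0, ∀ z ∈ ball p δ, fderiv ℝ ρ z e < -(1 / 2) ∧ z ∈ U := by
    have h1 : {z | fderiv ℝ ρ z e < -(1 / 2)} ∩ U ∈ 𝓝 p := by
      refine Filter.inter_mem ?_ (hU.mem_nhds hpU)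
      apply (isOpen_lt hce continuous_const).mem_nhds
      rw [mem_ofPred_eq, he]
      norm_num
    obtain ⟨δ, hδ, h⟩ := Metric.mem_nhds_iff.mp h1
    exact ⟨δ, hδ, fun z hz => h hz⟩
  set t0 : ℝ := δ / (2 * (‖e‖ + 1)) with ht0
  have hen : 0 ≤ ‖e‖ := norm_nonneg _
  have ht0pos : 0 < t0 := by positivity
  have ht0e : t0 * ‖e‖ < δ / 2 := by
    have h1 : t0 * (‖e‖ + 1) = δ / 2 := by
      rw [ht0]; field_simp
    nlinarith
  obtain ⟨r1, hr1, hr1b⟩ : ∃ r1 > 0, ∀ z ∈ ball p r1, |ρ z| < t0 / 2 := by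
    have h1 : {z | |ρ z| < t0 / 2} ∈ 𝓝 p := by
      apply (isOpen_lt hρc.abs continuous_const).mem_nhds
      rw [mem_ofPred_eq, hρp, abs_zero]
      positivity
    obtain ⟨δ, hδ, h⟩ := Metric.mem_nhds_iff.mp h1
    exact ⟨δ, hδ, fun z hz => h hz⟩
  refine ⟨2 * ‖e‖ + 1, min r1 (δ / 2), by positivity, by positivity, ?_⟩
  intro z hz
  have hz1 : ‖z - p‖ < r1 := hz.trans_le (min_le_left _ _)
  have hz2 : ‖z - p‖ < δ / 2 := hz.trans_le (min_le_right _ _)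
  have hρz : |ρ z| < t0 / 2 := hr1b z (by rw [mem_ball, dist_eq_norm]; exact hz1)
  have hin : ∀ t ∈ Icc (-t0) t0, z + t • e ∈ ball p δ := by
    intro t ht
    rw [mem_ball, dist_eq_norm]
    have h1 : ‖z + t • e - p‖ ≤ ‖z - p‖ + ‖t • e‖ := by
      have : z + t • e - p = (z - p) + t • e := by abel
      rw [this]; exact norm_add_le _ _
    have h2 : ‖t • e‖ ≤ t0 * ‖e‖ := by
      rw [norm_smul, Real.norm_eq_abs]
      exact mul_le_mul_of_nonneg_right (abs_le.mpr ht) hen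
    linarith
  set h : ℝ → ℝ := fun t => ρ (z + t • e) with hh
  have hder : ∀ t, HasDerivAt h (fderiv ℝ ρ (z + t • e) e) t := by
    intro t
    have h1 : HasDerivAt (fun t : ℝ => z + t • e) e t := by
      have := ((hasDerivAt_id t).smul_const e).const_add z
      simpa using this
    exact ((hsm.differentiable (by simp)).differentiableAt.hasFDerivAt).comp_hasDerivAt t h1
  have hcont : Continuous h := by
    rw [continuous_iff_continuousAt]; exact fun t => (hder t).continuousAt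
  have hmono : ∀ x ∈ Icc (-t0) t0, ∀ y ∈ Icc (-t0) t0, x ≤ y → h y - h x ≤ -(1 / 2) * (y - x) := by
    apply Convex.image_sub_le_mul_sub_of_deriv_le (convex_Icc _ _) hcont.continuousOn
    · intro x _; exact (hder x).differentiableAt.differentiableWithinAt
    · intro x hx
      rw [(hder x).deriv]
      exact (hδb _ (hin x (interior_subset hx))).1.le
  have h0 : h 0 = ρ z := by simp [hh]
  set a : ℝ := 2 * |ρ z| with ha
  have ha0 : 0 ≤ a := by positivity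
  have hat : a < t0 := by rw [ha]; linarith
  have h0m : (0 : ℝ) ∈ Icc (-t0) t0 := ⟨by linarith, by linarith⟩
  have ham : a ∈ Icc (-t0) t0 := ⟨by linarith, by linarith⟩
  have ham' : -a ∈ Icc (-t0) t0 := ⟨by linarith, by linarith⟩
  have hh1 : h a ≤ 0 := by
    have := hmono 0 h0m a ham ha0
    rw [h0] at this
    have := le_abs_self (ρ z)
    linarith
  have hh2 : 0 ≤ h (-a) := by
    have := hmono (-a) ham' 0 h0m (by linarith)
    rw [h0] at this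
    have := neg_abs_le (ρ z)
    linarith
  obtain ⟨t, ht, htz⟩ : (0 : ℝ) ∈ h '' Icc (-a) a :=
    intermediate_value_Icc' (by linarith) hcont.continuousOn ⟨hh1, hh2⟩
  have htm : t ∈ Icc (-t0) t0 := ⟨by linarith [ht.1], by linarith [ht.2]⟩
  refine ⟨z + t • e, (hδb _ (hin t htm)).2, htz, ?_⟩
  have : z - (z + t • e) = - (t • e) := by abel
  rw [this, norm_neg, norm_smul, Real.norm_eq_abs]
  have h1 : |t| ≤ a := abs_le.mpr ht
  calc |t| * ‖e‖ ≤ a * ‖e‖ := mul_le_mul_of_nonneg_right h1 hen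
    _ = 2 * ‖e‖ * |ρ z| := by rw [ha]; ring
    _ ≤ (2 * ‖e‖ + 1) * |ρ z| := by
        apply mul_le_mul_of_nonneg_right _ (abs_nonneg _); linarith

theorem PSC : S_PSC := by
  intro n U ρ p hU hpU hsm hρp hnz hpsc
  obtain ⟨e, he⟩ := dir_local hnz
  obtain ⟨Kb, Rb, hKb, hRb, hb⟩ := bdry_local hU hpU hsm hρp he
  have hρc : Continuous ρ := hsm.continuous
  have hρ1 : ContDiff ℝ ((⊤ : ℕ∞) : WithTop ℕ∞) (fderiv ℝ ρ) :=
    hsm.fderiv_right (by norm_cast)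
  have hρ2 : ContDiff ℝ ((⊤ : ℕ∞) : WithTop ℕ∞) (fderiv ℝ (fderiv ℝ ρ)) :=
    hρ1.fderiv_right (by norm_cast)
  have hle1 : (1 : WithTop ℕ∞) ≤ ((⊤ : ℕ∞) : WithTop ℕ∞) := by exact_mod_cast le_top
  obtain ⟨L1, u1, hu1, hL1⟩ := (hρ1.contDiffAt (x := p)).of_le hle1 |>.exists_lipschitzOnWith
  obtain ⟨L2, u2, hu2, hL2⟩ := (hρ2.contDiffAt (x := p)).of_le hle1 |>.exists_lipschitzOnWith
  set M0 : ℝ := ‖fderiv ℝ (fderiv ℝ ρ) p‖ + 1 with hM0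
  set M1 : ℝ := ‖fderiv ℝ ρ p‖ + 1 with hM1
  have hM0pos : 0 < M0 := by positivity
  have hM1pos : 0 < M1 := by positivity
  have hev : ∀ᶠ z in 𝓝 p, z ∈ u1 ∧ z ∈ u2 ∧ ‖fderiv ℝ (fderiv ℝ ρ) z‖ < M0 ∧
      ‖fderiv ℝ ρ z‖ < M1 ∧ fderiv ℝ ρ z e < -(1 / 2) := by
    have k0 : Continuous (fun z => fderiv ℝ ρ z e) := hρ1.continuous.clm_apply continuous_const
    have hLr : ∀ (L : NNReal) (x : ℝ), 0 ≤ x → x < 1 / ((L : ℝ) + 1) → (L : ℝ) * x < 1 := by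
      intro L x hx0 hx
      have hL0 : (0 : ℝ) ≤ L := L.coe_nonneg
      have h1 : x * ((L : ℝ) + 1) < 1 := by
        rw [lt_div_iff₀ (by linarith)] at hx; exact hx
      nlinarith
    have c1 : ∀ᶠ z in 𝓝 p, ‖fderiv ℝ (fderiv ℝ ρ) z‖ < M0 := by
      have hb : ball p (1 / ((L2 : ℝ) + 1)) ∈ 𝓝 p := ball_mem_nhds _ (by positivity)
      filter_upwards [hu2, hb] with z hz hz'
      have h := hL2.dist_le_mul z hz p (mem_of_mem_nhds hu2)
      have h3 := hLr L2 _ dist_nonneg hz'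
      rw [dist_eq_norm] at h
      have h2 := norm_sub_norm_le (fderiv ℝ (fderiv ℝ ρ) z) (fderiv ℝ (fderiv ℝ ρ) p)
      rw [hM0]; linarith
    have c2 : ∀ᶠ z in 𝓝 p, ‖fderiv ℝ ρ z‖ < M1 := by
      have hb : ball p (1 / ((L1 : ℝ) + 1)) ∈ 𝓝 p := ball_mem_nhds _ (by positivity)
      filter_upwards [hu1, hb] with z hz hz'
      have h := hL1.dist_le_mul z hz p (mem_of_mem_nhds hu1)
      have h3 := hLr L1 _ dist_nonneg hz'
      rw [dist_eq_norm] at h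
      have h2 := norm_sub_norm_le (fderiv ℝ ρ z) (fderiv ℝ ρ p)
      rw [hM1]; linarith
    have c3 : ∀ᶠ z in 𝓝 p, fderiv ℝ ρ z e < -(1 / 2) := by
      apply (isOpen_lt k0 continuous_const).mem_nhds
      rw [mem_ofPred_eq, he]; norm_num
    filter_upwards [hu1, hu2, c1, c2, c3] with z h1 h2 h3 h4 h5 using ⟨h1, h2, h3, h4, h5⟩
  obtain ⟨δ, hδ, hδb⟩ := Metric.eventually_nhds_iff_ball.mp hev
  have hev2 : ∀ᶠ z in 𝓝 p, Kb * |ρ z| < δ / 2 := by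
    have : Tendsto (fun z => Kb * |ρ z|) (𝓝 p) (𝓝 (Kb * |ρ p|)) :=
      (continuous_const.mul hρc.abs).tendsto p
    apply this.eventually_lt_const
    rw [hρp, abs_zero, mul_zero]; positivity
  obtain ⟨δ2, hδ2, hδ2b⟩ := Metric.eventually_nhds_iff_ball.mp hev2
  set E : ℝ := ‖e‖ with hE
  have hE0 : 0 ≤ E := norm_nonneg _
  -- constants
  set A : ℝ := 2 * E * (4 * M0 * (1 + 4 * M1 * E) + 2 * M0 * (4 * M1 * E)) with hA
  have hA0 : 0 ≤ A := by positivity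
  set K : ℝ := A + (2 * A * L1 * Kb + 2 * L2 * Kb) + 1 with hK
  have hKpos : 0 < K := by positivity
  refine ⟨K, min Rb (min (δ / 2) δ2), hKpos, by positivity, ?_⟩
  intro z hz X
  have hz1 : ‖z - p‖ < Rb := hz.trans_le (min_le_left _ _)
  have hz2 : ‖z - p‖ < δ / 2 := hz.trans_le ((min_le_right _ _).trans (min_le_left _ _))
  have hz3 : ‖z - p‖ < δ2 := hz.trans_le ((min_le_right _ _).trans (min_le_right _ _))
  obtain ⟨q, hqU, hq0, hzq⟩ := hb z hz1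
  have hsmall : Kb * |ρ z| < δ / 2 := hδ2b z (by rw [mem_ball, dist_eq_norm]; exact hz3)
  have hqp : ‖q - p‖ < δ := by
    have h1 : ‖q - p‖ ≤ ‖z - q‖ + ‖z - p‖ := by
      have h2 : q - p = (z - p) - (z - q) := by abel
      rw [h2, add_comm]
      exact norm_sub_le _ _
    linarith
  obtain ⟨hzu1, hzu2, -, -, -⟩ := hδb z (by rw [mem_ball, dist_eq_norm]; linarith)
  obtain ⟨hqu1, hqu2, hqM0, hqM1, hqe⟩ := hδb q (by rw [mem_ball, dist_eq_norm]; exact hqp)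
  -- Lipschitz bounds
  have hd1 : ‖fderiv ℝ ρ q - fderiv ℝ ρ z‖ ≤ L1 * (Kb * |ρ z|) := by
    have h := hL1.dist_le_mul q hqu1 z hzu1
    rw [dist_eq_norm, dist_eq_norm, norm_sub_rev q z] at h
    exact h.trans (mul_le_mul_of_nonneg_left hzq L1.coe_nonneg)
  have hd2 : ‖fderiv ℝ (fderiv ℝ ρ) q - fderiv ℝ (fderiv ℝ ρ) z‖ ≤ L2 * (Kb * |ρ z|) := by
    have h := hL2.dist_le_mul q hqu2 z hzu2
    rw [dist_eq_norm, dist_eq_norm, norm_sub_rev q z] at h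
    exact h.trans (mul_le_mul_of_nonneg_left hzq L2.coe_nonneg)
  have hI : ∀ a : V n, ‖Complex.I • a‖ = ‖a‖ := by
    intro a; rw [norm_smul, Complex.norm_I, one_mul]
  -- lower bound for ell
  have hee : 1 / 2 ≤ ‖ell ρ q e‖ := by
    have h1 : |(ell ρ q e).re| ≤ ‖ell ρ q e‖ := Complex.abs_re_le_norm _
    have h2 : (ell ρ q e).re = fderiv ℝ ρ q e := by simp [ell]
    rw [h2] at h1
    have h3 := neg_abs_le (fderiv ℝ ρ q e)
    linarith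
  have hne : ell ρ q e ≠ 0 := by
    intro h; rw [h, norm_zero] at hee; linarith
  set m : ℂ := ell ρ q X / ell ρ q e with hm
  set XT : V n := X + (-m) • e with hXT
  have hellXT : ell ρ q XT = 0 := by
    rw [hXT, ell_add, ell_smul, hm]
    field_simp
    ring
  obtain ⟨ht1, ht2⟩ := ell_eq_zero hellXT
  have hH0 : 0 ≤ H4 ρ q XT := hpsc q hqU hq0 XT ht1 ht2
  have hXN : 0 ≤ ‖X‖ := norm_nonneg _
  have hmn : ‖m‖ ≤ 2 * ‖ell ρ q X‖ := by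
    rw [hm, norm_div, div_le_iff₀ (by linarith)]
    have h1 : 0 ≤ ‖ell ρ q X‖ := norm_nonneg _
    nlinarith
  have hellX : ‖ell ρ q X‖ ≤ |fderiv ℝ ρ q X| + |fderiv ℝ ρ q (Complex.I • X)| := norm_ell_le _ _ _
  have hellX2 : ‖ell ρ q X‖ ≤ 2 * M1 * ‖X‖ := by
    have h1 : |fderiv ℝ ρ q X| ≤ M1 * ‖X‖ := by
      have := (fderiv ℝ ρ q).le_opNorm X
      rw [Real.norm_eq_abs] at this
      exact this.trans (mul_le_mul_of_nonneg_right hqM1.le hXN)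
    have h2 : |fderiv ℝ ρ q (Complex.I • X)| ≤ M1 * ‖X‖ := by
      have := (fderiv ℝ ρ q).le_opNorm (Complex.I • X)
      rw [Real.norm_eq_abs, hI] at this
      exact this.trans (mul_le_mul_of_nonneg_right hqM1.le hXN)
    linarith
  have hY : ‖m • e‖ = ‖m‖ * E := norm_smul _ _
  have hm0 : 0 ≤ ‖m‖ := norm_nonneg _
  have hmX : ‖m‖ ≤ 4 * M1 * ‖X‖ := by linarith
  have hYX : ‖m • e‖ ≤ 4 * M1 * E * ‖X‖ := by
    rw [hY]
    calc ‖m‖ * E ≤ (4 * M1 * ‖X‖) * E := mul_le_mul_of_nonneg_right hmX hE0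
      _ = _ := by ring
  have hXTn : ‖XT‖ ≤ (1 + 4 * M1 * E) * ‖X‖ := by
    have h1 : ‖XT‖ ≤ ‖X‖ + ‖m • e‖ := by
      rw [hXT, neg_smul]
      refine (norm_add_le _ _).trans ?_
      rw [norm_neg]
    linarith
  have hdiff := H4_add ρ q XT (m • e) M0 hqM0.le
  have hXsum : XT + m • e = X := by
    rw [hXT, neg_smul]; abel
  rw [hXsum] at hdiff
  have hdiff2 : 4 * M0 * ‖XT‖ * ‖m • e‖ + 2 * M0 * ‖m • e‖ ^ 2 ≤ A * ‖X‖ * ‖ell ρ q X‖ := by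
    have h1 : 4 * M0 * ‖XT‖ * ‖m • e‖ ≤ 4 * M0 * ((1 + 4 * M1 * E) * ‖X‖) * (‖m‖ * E) := by
      rw [hY]; gcongr
    have h2 : 2 * M0 * ‖m • e‖ ^ 2 ≤ 2 * M0 * ((4 * M1 * E * ‖X‖) * (‖m‖ * E)) := by
      rw [pow_two]
      apply mul_le_mul_of_nonneg_left _ (by positivity)
      calc ‖m • e‖ * ‖m • e‖ ≤ (4 * M1 * E * ‖X‖) * ‖m • e‖ :=
            mul_le_mul_of_nonneg_right hYX (norm_nonneg _)
        _ = _ := by rw [hY]
    have h3 : 4 * M0 * ((1 + 4 * M1 * E) * ‖X‖) * (‖m‖ * E) +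
        2 * M0 * ((4 * M1 * E * ‖X‖) * (‖m‖ * E))
        = (E * (4 * M0 * (1 + 4 * M1 * E) + 2 * M0 * (4 * M1 * E)) * ‖X‖) * ‖m‖ := by ring
    have h4 : (E * (4 * M0 * (1 + 4 * M1 * E) + 2 * M0 * (4 * M1 * E)) * ‖X‖) * ‖m‖
        ≤ (E * (4 * M0 * (1 + 4 * M1 * E) + 2 * M0 * (4 * M1 * E)) * ‖X‖)
          * (2 * ‖ell ρ q X‖) := by gcongr
    have h5 : (E * (4 * M0 * (1 + 4 * M1 * E) + 2 * M0 * (4 * M1 * E)) * ‖X‖)
          * (2 * ‖ell ρ q X‖) = A * ‖X‖ * ‖ell ρ q X‖ := by rw [hA]; ring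
    linarith
  have hlow : - (A * ‖X‖ * ‖ell ρ q X‖) ≤ H4 ρ q X := by
    have := (abs_le.mp (hdiff.trans hdiff2)).1
    linarith
  -- compare H4 at q and z
  set r : ℝ := |ρ z| with hr
  have hr0 : 0 ≤ r := abs_nonneg _
  have hHqz : H4 ρ q X - H4 ρ z X ≤ 2 * (L2 * (Kb * r)) * ‖X‖ ^ 2 := by
    have hbb : ∀ a : V n, ‖a‖ = ‖X‖ →
        fderiv ℝ (fderiv ℝ ρ) q a a - fderiv ℝ (fderiv ℝ ρ) z a a ≤ L2 * (Kb * r) * ‖X‖ ^ 2 := by
      intro a ha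
      have h1 := (fderiv ℝ (fderiv ℝ ρ) q - fderiv ℝ (fderiv ℝ ρ) z).le_opNorm₂ a a
      have h2 : (fderiv ℝ (fderiv ℝ ρ) q - fderiv ℝ (fderiv ℝ ρ) z) a a =
          fderiv ℝ (fderiv ℝ ρ) q a a - fderiv ℝ (fderiv ℝ ρ) z a a := rfl
      rw [Real.norm_eq_abs, h2, ha] at h1
      have h3 := (le_abs_self _).trans h1
      refine h3.trans ?_
      have : ‖fderiv ℝ (fderiv ℝ ρ) q - fderiv ℝ (fderiv ℝ ρ) z‖ * ‖X‖ * ‖X‖
          ≤ L2 * (Kb * r) * ‖X‖ * ‖X‖ := by gcongr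
      refine this.trans (le_of_eq ?_)
      ring
    have b1 := hbb X rfl
    have b2 := hbb (Complex.I • X) (hI X)
    rw [H4, H4]
    linarith
  -- compare ell at q with the derivative at z
  have hellz : ‖ell ρ q X‖ ≤ (|fderiv ℝ ρ z X| + |fderiv ℝ ρ z (Complex.I • X)|)
      + 2 * (L1 * (Kb * r)) * ‖X‖ := by
    have hbb : ∀ a : V n, ‖a‖ = ‖X‖ →
        |fderiv ℝ ρ q a| ≤ |fderiv ℝ ρ z a| + L1 * (Kb * r) * ‖X‖ := by
      intro a ha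
      have h1 := (fderiv ℝ ρ q - fderiv ℝ ρ z).le_opNorm a
      have h2 : (fderiv ℝ ρ q - fderiv ℝ ρ z) a = fderiv ℝ ρ q a - fderiv ℝ ρ z a := rfl
      rw [Real.norm_eq_abs, h2, ha] at h1
      have h3 : |fderiv ℝ ρ q a| ≤ |fderiv ℝ ρ z a| + |fderiv ℝ ρ q a - fderiv ℝ ρ z a| := by
        have := abs_add_le (fderiv ℝ ρ z a) (fderiv ℝ ρ q a - fderiv ℝ ρ z a)
        simpa using this
      have h4 : ‖fderiv ℝ ρ q - fderiv ℝ ρ z‖ * ‖X‖ ≤ L1 * (Kb * r) * ‖X‖ := by gcongr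
      linarith
    have b1 := hbb X rfl
    have b2 := hbb (Complex.I • X) (hI X)
    linarith
  set S : ℝ := |fderiv ℝ ρ z X| + |fderiv ℝ ρ z (Complex.I • X)| with hS
  have hS0 : 0 ≤ S := by positivity
  have hAX : A * ‖X‖ * ‖ell ρ q X‖ ≤ A * ‖X‖ * (S + 2 * (L1 * (Kb * r)) * ‖X‖) :=
    mul_le_mul_of_nonneg_left hellz (by positivity)
  have hgoal : K * r * ‖X‖ ^ 2 + K * ‖X‖ * S ≥
      A * ‖X‖ * (S + 2 * (L1 * (Kb * r)) * ‖X‖) + 2 * (L2 * (Kb * r)) * ‖X‖ ^ 2 := by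
    have hL1n : (0 : ℝ) ≤ L1 := L1.coe_nonneg
    have hL2n : (0 : ℝ) ≤ L2 := L2.coe_nonneg
    have k1 : A * ‖X‖ * S ≤ K * ‖X‖ * S := by
      have : A ≤ K := by
        rw [hK]
        have : 0 ≤ 2 * A * L1 * Kb + 2 * L2 * Kb := by positivity
        linarith
      gcongr
    have k2 : (2 * A * L1 * Kb + 2 * L2 * Kb) * (r * ‖X‖ ^ 2) ≤ K * (r * ‖X‖ ^ 2) := by
      have : 2 * A * L1 * Kb + 2 * L2 * Kb ≤ K := by
        rw [hK]; linarith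
      exact mul_le_mul_of_nonneg_right this (by positivity)
    have k3 : A * ‖X‖ * (S + 2 * (L1 * (Kb * r)) * ‖X‖) + 2 * (L2 * (Kb * r)) * ‖X‖ ^ 2
        = A * ‖X‖ * S + (2 * A * L1 * Kb + 2 * L2 * Kb) * (r * ‖X‖ ^ 2) := by ring
    rw [k3]
    have k4 : K * r * ‖X‖ ^ 2 = K * (r * ‖X‖ ^ 2) := by ring
    rw [k4]
    linarith
  change -(K * r * ‖X‖ ^ 2) - K * ‖X‖ * S ≤ H4 ρ z X
  linarith


end Pool.Agent.W722.Cq
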