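import Pool.Agent.W722.Cq.Defs

/-!
# Project CQ: exact statements of the lemmas (targets of the subtasks)
-/

set_option autoImplicit false

open Metric Set Filter Topology Asymptotics

namespace Pool.Agent.W722.Cq

/-! ## Part I: the normal form -/

/-- CQ-PSC: local pseudoconvexity inequality -/
def S_PSC : Prop :=
  ∀ (n : ℕ) (U : Set (V n)) (r : V n → ℝ) (p : V n), IsOpen U → p ∈ U →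
    ContDiff ℝ ((⊤ : ℕ∞) : WithTop ℕ∞) r → r p = 0 → fderiv ℝ r p ≠ 0 →
    (∀ q ∈ U, r q = 0 → ∀ v : V n, fderiv ℝ r q v = 0 → fderiv ℝ r q (Complex.I • v) = 0 →
      0 ≤ Lv r q v) → Psc r p

/-- CQ-LVC: the Levi form of a composition with a holomorphic map -/
def S_LVC : Prop :=
  ∀ (n k : ℕ) (r : V n → ℝ) (Φ : EE k → V n), ContDiff ℝ ((⊤ : ℕ∞) : WithTop ℕ∞) r →
    ContDiff ℂ ((⊤ : ℕ∞) : WithTop ℕ∞) Φ →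
      ContDiff ℝ ((⊤ : ℕ∞) : WithTop ℕ∞) (fun z => r (Φ z)) ∧
      (∀ z X : EE k, fderiv ℝ (fun z => r (Φ z)) z X = fderiv ℝ r (Φ z) (fderiv ℂ Φ z X)) ∧
      (∀ z X : EE k, LvE (fun z => r (Φ z)) z X = Lv r (Φ z) (fderiv ℂ Φ z X)) ∧
      (Psc r (Φ 0) → PscE (fun z => r (Φ z)))

/-- CQ-LIN: linear coordinates -/
def S_LIN : Prop :=
  ∀ (n : ℕ) (r : V n → ℝ) (p : V n) (W : Submodule ℂ (V n)) (v : V n), 2 ≤ n →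
    ContDiff ℝ ((⊤ : ℕ∞) : WithTop ℕ∞) r → fderiv ℝ r p ≠ 0 →
    n - 2 ≤ Module.finrank ℂ W →
    (∀ u ∈ W, u ≠ 0 → fderiv ℝ r p u = 0 ∧ fderiv ℝ r p (Complex.I • u) = 0 ∧ 0 < Lv r p u) →
    v ≠ 0 → fderiv ℝ r p v = 0 → fderiv ℝ r p (Complex.I • v) = 0 → Lv r p v ≤ 0 →
    ∃ (k : ℕ) (A : EE k ≃L[ℂ] V n), (∀ z : EE k, fderiv ℝ r p (A z) = z.2.2.re) ∧
      ∀ y : V k, Lv r p (A (0, y, 0)) = 4 * ‖y‖ ^ 2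

/-- CQ-QUAD: removing the pluriharmonic quadratic terms -/
def S_QUAD : Prop :=
  ∀ (n k : ℕ) (r : V n → ℝ) (p : V n) (A : EE k ≃L[ℂ] V n),
    ContDiff ℝ ((⊤ : ℕ∞) : WithTop ℕ∞) r → r p = 0 →
    (∀ z : EE k, fderiv ℝ r p (A z) = z.2.2.re) →
    (∀ y : V k, Lv r p (A (0, y, 0)) = 4 * ‖y‖ ^ 2) →
    ∃ Φ : EE k → V n, ContDiff ℂ ((⊤ : ℕ∞) : WithTop ℕ∞) Φ ∧ Φ 0 = p ∧ (fderiv ℂ Φ 0).IsInvertible ∧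
      Nrm (fun z => r (Φ z))

/-- CQ-EXT: extraction of the pure terms of the next order -/
def S_EXT : Prop :=
  ∀ (f : ℂ → ℝ) (j : ℕ), ContDiff ℝ ((⊤ : ℕ∞) : WithTop ℕ∞) f → Pure j f →
    ∃ a : ℂ, Pure (j + 1) (fun x => f x - (a * x ^ (j + 1)).re)

/-- CQ-ALG: linear algebra of one step of the normal form -/
def S_ALG : Prop :=
  ∀ (k : ℕ) (M : V k × ℝ →ₗ[ℝ] ℂ), ∃ (b : V k) (κ : V k →L[ℂ] ℂ) (t : ℂ),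
    ∀ (ξ : ℂ) (y : V k) (σ : ℝ),
      2 * (inner ℂ y (ξ • b) : ℂ).re + (ξ * κ y).re + (t * ξ * ((σ : ℂ) * Complex.I)).re
        = -(M (y, σ) * ξ).re

/-- CQ-ST1: first half of a step -/
def S_ST1 : Prop :=
  ∀ (k : ℕ) (r : EE k → ℝ) (j : ℕ), Nrm r → Pure (j + 1) (cur r) →
    (∀ (y : V k) (σ : ℝ), Pure j (Rc r y σ)) →
    ∃ Θ : EE k → EE k, ContDiff ℂ ((⊤ : ℕ∞) : WithTop ℕ∞) Θ ∧ Θ 0 = 0 ∧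
      (fderiv ℂ Θ 0).IsInvertible ∧
      Nrm (fun z => r (Θ z)) ∧ Pure (j + 1) (cur (fun z => r (Θ z))) ∧
      ∀ (y : V k) (σ : ℝ), Pure (j + 1) (Rc (fun z => r (Θ z)) y σ)

/-- CQ-ST2: second half of a step -/
def S_ST2 : Prop :=
  ∀ (k : ℕ) (r : EE k → ℝ) (j : ℕ), Nrm r → Pure (j + 1) (cur r) →
    (∀ (y : V k) (σ : ℝ), Pure (j + 1) (Rc r y σ)) →
    ∃ Θ : EE k → EE k, ContDiff ℂ ((⊤ : ℕ∞) : WithTop ℕ∞) Θ ∧ Θ 0 = 0 ∧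
      (fderiv ℂ Θ 0).IsInvertible ∧
      Nrm (fun z => r (Θ z)) ∧ Pure (j + 2) (cur (fun z => r (Θ z))) ∧
      ∀ (y : V k) (σ : ℝ), Pure (j + 1) (Rc (fun z => r (Θ z)) y σ)

/-- CQ-NFN: the normal form of every order -/
def S_NFN : Prop :=
  ∀ (k : ℕ) (r : EE k → ℝ), Nrm r → ∀ N : ℕ,
    ∃ Θ : EE k → EE k, ContDiff ℂ ((⊤ : ℕ∞) : WithTop ℕ∞) Θ ∧ Θ 0 = 0 ∧
      (fderiv ℂ Θ 0).IsInvertible ∧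
      Nrm (fun z => r (Θ z)) ∧ Pure (N + 1) (cur (fun z => r (Θ z))) ∧
      ∀ (y : V k) (σ : ℝ), Pure N (Rc (fun z => r (Θ z)) y σ)

/-- CQ-DER: smooth functions of order `k + 2` -/
def S_DER : Prop :=
  ∀ (f : ℂ → ℝ), ContDiff ℝ ((⊤ : ℕ∞) : WithTop ℕ∞) f →
    (∀ k : ℕ, f =O[𝓝 (0 : ℂ)] (fun x => ‖x‖ ^ (k + 1)) →
      (∀ j ≤ k, iteratedFDeriv ℝ j f 0 = 0) ∧
      (fun x => fderiv ℝ f x) =O[𝓝 (0 : ℂ)] (fun x => ‖x‖ ^ k)) ∧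
    (∀ k : ℕ, f =O[𝓝 (0 : ℂ)] (fun x => ‖x‖ ^ (k + 2)) →
      (fun x => Lap f x) =O[𝓝 (0 : ℂ)] (fun x => ‖x‖ ^ k))

/-- CQ-LOW: the lowest homogeneous part -/
def S_LOW : Prop :=
  ∀ (f : ℂ → ℝ) (N M : ℕ), M ≤ N → Pure N f →
    ¬ f =O[𝓝 (0 : ℂ)] (fun x => ‖x‖ ^ (M + 1)) →
    ∃ (d : ℕ) (c : ℕ → ℂ), 2 ≤ d ∧ d ≤ M ∧ (∃ x : ℂ, Hm d c x ≠ 0) ∧
      (fun x => f x - Hm d c x) =O[𝓝 (0 : ℂ)] (fun x => ‖x‖ ^ (d + 1))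

/-- CQ-HOM: the Laplacian of the lowest homogeneous part; parity; injectivity -/
def S_HOM : Prop :=
  (∀ (f : ℂ → ℝ) (d : ℕ) (c : ℕ → ℂ), 2 ≤ d → ContDiff ℝ ((⊤ : ℕ∞) : WithTop ℕ∞) f →
    (fun x => f x - Hm d c x) =O[𝓝 (0 : ℂ)] (fun x => ‖x‖ ^ (d + 1)) →
    (∃ C : ℝ, ∀ᶠ x in 𝓝 (0 : ℂ), -(C * ‖x‖ ^ (d - 1)) ≤ Lap f x) →
    ∀ x : ℂ, 0 ≤ Lap (Hm d c) x) ∧
  (∀ (d : ℕ) (c : ℕ → ℂ), (∀ x : ℂ, Lap (Hm d c) x = 0) → ∀ x : ℂ, Hm d c x = 0) ∧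
  (∀ (d : ℕ) (c : ℕ → ℂ), Odd d → (∀ x : ℂ, 0 ≤ Lap (Hm d c) x) → ∀ x : ℂ, Hm d c x = 0)

/-- CQ-RV: vanishing of the mixed part of the coefficient of `(y, Im w)` by pseudoconvexity -/
def S_RV : Prop :=
  ∀ (k : ℕ) (r : EE k → ℝ) (m : ℕ), 1 ≤ m → Nrm r → PscE r →
    cur r =O[𝓝 (0 : ℂ)] (fun x => ‖x‖ ^ (2 * m)) →
    (∀ (y : V k) (σ : ℝ), Pure m (Rc r y σ)) →
    ∀ (y : V k) (σ : ℝ), Rc r y σ =O[𝓝 (0 : ℂ)] (fun x => ‖x‖ ^ (m + 1))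

/-- CQ-T2: if the lowest part has degree two the Levi form is positive definite -/
def S_T2 : Prop :=
  ∀ (k : ℕ) (r : EE k → ℝ) (c : ℕ → ℂ), Nrm r →
    (fun x => cur r x - Hm 2 c x) =O[𝓝 (0 : ℂ)] (fun x => ‖x‖ ^ 3) →
    (∀ x : ℂ, 0 ≤ Lap (Hm 2 c) x) → (∃ x : ℂ, Hm 2 c x ≠ 0) →
    (∀ (y : V k) (σ : ℝ), Rc r y σ =O[𝓝 (0 : ℂ)] (fun x => ‖x‖ ^ 2)) →
    ∀ X : EE k, X ≠ 0 → X.2.2 = 0 → 0 < LvE r 0 X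

/-- CQ-ASN: the final estimate of the normal form -/
def S_ASN : Prop :=
  ∀ (k : ℕ) (r : EE k → ℝ) (m : ℕ) (P : ℂ → ℝ), 1 ≤ m → Nrm r →
    (fun x => cur r x - P x) =O[𝓝 (0 : ℂ)] (fun x => ‖x‖ ^ (2 * m + 1)) →
    (∀ (y : V k) (σ : ℝ), Rc r y σ =O[𝓝 (0 : ℂ)] (fun x => ‖x‖ ^ (m + 1))) →
    ∃ C c : ℝ, 0 < C ∧ 0 < c ∧ ∀ z : EE k, ‖z‖ < c →
      |r z - rho0 P z| ≤ C * ‖z‖ * Wt m z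

/-- the normal form -/
structure NF {n k : ℕ} (m : ℕ) (r : V n → ℝ) (p : V n) (Φ : EE k → V n) (P : ℂ → ℝ) : Prop where
  two : 2 ≤ m
  hol : ContDiff ℂ ((⊤ : ℕ∞) : WithTop ℕ∞) Φ
  zero : Φ 0 = p
  inv : (fderiv ℂ Φ 0).IsInvertible
  pol : Pol m P
  est : ∃ C c : ℝ, 0 < C ∧ 0 < c ∧ ∀ z : EE k, ‖z‖ < c →
    |r (Φ z) - rho0 P z| ≤ C * ‖z‖ * Wt m z

/-- the normal form theorem (assembly of Part I) -/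
def S_NF : Prop :=
  ∀ (n : ℕ) (U : Set (V n)) (r : V n → ℝ) (p : V n) (W : Submodule ℂ (V n)) (v : V n),
    2 ≤ n → IsOpen U → p ∈ U → ContDiff ℝ ((⊤ : ℕ∞) : WithTop ℕ∞) r → r p = 0 →
    fderiv ℝ r p ≠ 0 → n - 2 ≤ Module.finrank ℂ W →
    (∀ u ∈ W, u ≠ 0 → fderiv ℝ r p u = 0 ∧ fderiv ℝ r p (Complex.I • u) = 0 ∧ 0 < Lv r p u) →
    v ≠ 0 → fderiv ℝ r p v = 0 → fderiv ℝ r p (Complex.I • v) = 0 → Lv r p v ≤ 0 →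
    (∀ q ∈ U, r q = 0 → ∀ v : V n, fderiv ℝ r q v = 0 → fderiv ℝ r q (Complex.I • v) = 0 →
      0 ≤ Lv r q v) →
    (∃ M : ℕ, ∀ γ : ℂ → V n, Differentiable ℂ γ → γ 0 = p → deriv γ 0 ≠ 0 →
      ∃ k : ℕ, k ≤ M ∧ iteratedFDeriv ℝ k (fun x => r (γ x)) 0 ≠ 0) →
    ∃ (k m : ℕ) (Φ : EE k → V n) (P : ℂ → ℝ), NF m r p Φ P

/-! ## Part II: the sequence and the local inverse -/

/-- CQ-PAR: paraboloidal approach in terms of `r` -/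
def S_PAR : Prop :=
  ∀ (n : ℕ) (D U : Set (V n)) (r : V n → ℝ) (p : V n) (C : ℝ), IsOpen D → IsOpen U → p ∈ U →
    p ∈ frontier D → ContDiff ℝ ((⊤ : ℕ∞) : WithTop ℕ∞) r → fderiv ℝ r p ≠ 0 →
    D ∩ U = {z | z ∈ U ∧ r z < 0} → 0 < C →
    ∃ K τ : ℝ, 0 < K ∧ 0 < τ ∧ ∀ z ∈ D, ‖z - p‖ < τ →
      ‖z - p‖ ^ 2 - (fderiv ℝ r p (z - p)) ^ 2 / ‖fderiv ℝ r p‖ ^ 2
        ≤ C ^ 2 * Metric.infDist z (frontier D) →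
      r z < 0 ∧ ‖z - p‖ ^ 2 ≤ K * (-(r z))

/-- the analytic situation: local inverse, inside and outside of the domain -/
structure Sit {n k : ℕ} (m : ℕ) (D : Set (V n)) (p : V n) (Φ : EE k → V n) (Ψ : V n → EE k)
    (P : ℂ → ℝ) (C c : ℝ) : Prop where
  two : 2 ≤ m
  C1 : 1 ≤ C
  c0 : 0 < c
  c1 : c ≤ 1
  pol : Pol m P
  bdd : ∀ x ∈ D, ‖x - p‖ ≤ C
  opn : IsOpen D
  hol : ContDiff ℂ ((⊤ : ℕ∞) : WithTop ℕ∞) Φ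
  inv1 : ∀ z : EE k, ‖z‖ < c → Ψ (Φ z) = z ∧ ‖Φ z - p‖ ≤ C * ‖z‖ ∧ DifferentiableAt ℂ Ψ (Φ z)
  inv2 : ∀ a : ℝ, 0 < a → ∃ b : ℝ, 0 < b ∧ ∀ x : V n, ‖x - p‖ < b → ‖Ψ x‖ < a ∧ Φ (Ψ x) = x
  inside : ∀ z : EE k, ‖z‖ < c → Φ z ∈ D → rho0 P z ≤ C * ‖z‖ * Wt m z
  outside : ∀ z : EE k, ‖z‖ < c → rho0 P z < -(C * ‖z‖ * Wt m z) → Φ z ∈ D

/-- CQ-INV: construction of the situation from the normal form -/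
def S_INV : Prop :=
  ∀ (n k m : ℕ) (D U : Set (V n)) (r : V n → ℝ) (p : V n) (Φ : EE k → V n) (P : ℂ → ℝ),
    NF m r p Φ P → IsOpen D → Bornology.IsBounded D → IsOpen U → p ∈ U →
    D ∩ U = {z | z ∈ U ∧ r z < 0} →
    ∃ (Ψ : V n → EE k) (C c : ℝ), Sit m D p Φ Ψ P C c

/-- CQ-SEQ: paraboloidal approach in the normal form coordinates -/
def S_SEQ : Prop :=
  ∀ (n k m : ℕ) (D : Set (V n)) (r : V n → ℝ) (p : V n) (Φ : EE k → V n) (Ψ : V n → EE k)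
    (P : ℂ → ℝ) (C c K : ℝ), ContDiff ℝ ((⊤ : ℕ∞) : WithTop ℕ∞) r → NF m r p Φ P →
    Sit m D p Φ Ψ P C c → 0 < K →
    ∃ C2 : ℝ, 0 < C2 ∧ ∀ τ : ℝ, 0 < τ → ∃ τ' : ℝ, 0 < τ' ∧ ∀ x : V n, ‖x - p‖ < τ' → r x < 0 →
      ‖x - p‖ ^ 2 ≤ K * (-(r x)) →
      Φ (Ψ x) = x ∧ ‖Ψ x‖ < τ ∧ 0 < -(rho0 P (Ψ x)) ∧ -(rho0 P (Ψ x)) < τ ∧
        ‖Ψ x‖ ^ 2 ≤ C2 * (-(rho0 P (Ψ x))) ∧ Wt m (Ψ x) ≤ C2 * (-(rho0 P (Ψ x)))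

/-! ## Part III: one-variable and general lemmas -/

/-- CQ-SMC: submean value inequality for `Q ∘ g`, `Q` of class C² and subharmonic -/
def S_SMC : Prop :=
  ∀ (Q : ℂ → ℝ), ContDiff ℝ 2 Q → (∀ x : ℂ, 0 ≤ Lap Q x) →
    ∀ (g : ℂ → ℂ) (a : ℂ) (s s' : ℝ), 0 < s → s < s' → DifferentiableOn ℂ g (ball a s') →
      Q (g a) ≤ Real.circleAverage (fun ζ => Q (g ζ)) a s

/-- CQ-BUMP: the bumping function -/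
def S_BUMP : Prop :=
  ∀ (m : ℕ) (P : ℂ → ℝ), 2 ≤ m → Pol m P →
    ∃ (G : ℂ → ℝ) (c C : ℝ), 0 < c ∧ 0 < C ∧ ContDiff ℝ 2 G ∧
      (∀ x : ℂ, c * ‖x‖ ^ (2 * m) ≤ G x ∧ G x ≤ C * ‖x‖ ^ (2 * m)) ∧
      ∀ x : ℂ, Lap G x ≤ Lap P x

/-- CQ-POL: elementary estimates for `P` -/
def S_POL : Prop :=
  ∀ (m : ℕ) (P : ℂ → ℝ), 1 ≤ m → Pol m P →
    ContDiff ℝ ((⊤ : ℕ∞) : WithTop ℕ∞) P ∧ ∃ C : ℝ, 0 < C ∧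
      (∀ x : ℂ, |P x| ≤ C * ‖x‖ ^ (2 * m)) ∧
      (∀ x x' : ℂ, |P x - P x'| ≤ C * ‖x - x'‖ * (‖x‖ + ‖x'‖) ^ (2 * m - 1))

/-- CQ-B: circle means of `P ∘ g` control circle means of `|g|^(2m)` -/
def S_B : Prop :=
  ∀ (m : ℕ) (P : ℂ → ℝ), 2 ≤ m → Pol m P →
    ∃ c C : ℝ, 0 < c ∧ 0 < C ∧ ∀ (g : ℂ → ℂ) (s s' : ℝ), 0 < s → s < s' →
      DifferentiableOn ℂ g (ball 0 s') →
      c * Real.circleAverage (fun ζ => ‖g ζ‖ ^ (2 * m)) 0 s - C * ‖g 0‖ ^ (2 * m)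
        ≤ Real.circleAverage (fun ζ => P (g ζ)) 0 s

/-- CQ-C: circle means of the weight along analytic discs inside the model domain -/
def S_C : Prop :=
  ∀ (k m : ℕ) (P : ℂ → ℝ) (C1 : ℝ), 2 ≤ m → Pol m P → 0 < C1 →
    ∃ c0 C : ℝ, 0 < c0 ∧ 0 < C ∧ ∀ (γ : ℂ → EE k) (s s' : ℝ), 0 < s → s < s' →
      DifferentiableOn ℂ γ (ball 0 s') →
      (∀ ζ ∈ ball (0 : ℂ) s', ‖γ ζ‖ ≤ c0 ∧ rho0 P (γ ζ) ≤ C1 * ‖γ ζ‖ * Wt m (γ ζ)) →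
      Real.circleAverage (fun ζ => Wt m (γ ζ)) 0 s ≤ C * Wt m (γ 0)

/-- CQ-CP: pointwise bounds of the weight along analytic discs inside the model domain -/
def S_CP : Prop :=
  ∀ (k m : ℕ) (P : ℂ → ℝ) (C1 : ℝ), 2 ≤ m → Pol m P → 0 < C1 →
    ∃ c0 : ℝ, 0 < c0 ∧ ∀ θ : ℝ, 0 < θ → θ < 1 → ∃ C : ℝ, 0 < C ∧
      ∀ (γ : ℂ → EE k) (s : ℝ), 0 < s → DifferentiableOn ℂ γ (ball 0 s) →
      (∀ ζ ∈ ball (0 : ℂ) s, ‖γ ζ‖ ≤ c0 ∧ rho0 P (γ ζ) ≤ C1 * ‖γ ζ‖ * Wt m (γ ζ)) →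
      ∀ ζ : ℂ, ‖ζ‖ ≤ θ * s → Wt m (γ ζ) ≤ C * Wt m (γ 0) ∧
        ‖(γ ζ).2.2 - (γ 0).2.2‖ ≤ C * Wt m (γ 0)

/-- CQ-T: smallness spreads to larger balls -/
def S_T : Prop :=
  ∀ (n : ℕ) (M R' R c η : ℝ), 0 < c → c < R' → R < R' → 0 < η →
    ∃ μ : ℝ, 0 < μ ∧ ∀ f : V n → V n, DifferentiableOn ℂ f (ball 0 R') →
      (∀ z ∈ ball (0 : V n) R', ‖f z‖ ≤ M) → (∀ z ∈ ball (0 : V n) c, ‖f z‖ ≤ μ) →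
      ∀ z ∈ ball (0 : V n) R, ‖f z‖ ≤ η

/-- CQ-HAD: two-circles estimate for functions with the submean value property -/
def S_HAD : Prop :=
  ∀ (f : ℂ → ℝ) (c R A B : ℝ), 0 < c → c < R → ContinuousOn f (closedBall 0 R) →
    (∀ ζ ∈ ball (0 : ℂ) R, ∀ᶠ s in 𝓝[>] (0 : ℝ), f ζ ≤ Real.circleAverage f ζ s) →
    (∀ ζ : ℂ, ‖ζ‖ = R → f ζ ≤ A) → (∀ ζ : ℂ, ‖ζ‖ = c → f ζ ≤ B) →
    ∀ ζ : ℂ, c ≤ ‖ζ‖ → ‖ζ‖ ≤ R →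
      f ζ ≤ A - (A - B) * (Real.log (R / ‖ζ‖) / Real.log (R / c))

/-- CQ-F: no bounded holomorphic function on the rectangle is small near the right side and not
small at `-1` -/
def S_F : Prop :=
  ∀ (n : ℕ) (C c : ℝ), 0 < C → 0 < c → ∃ η : ℝ, 0 < η ∧ η < 1 ∧
    ∀ f : ℂ → V n, DifferentiableOn ℂ f {w : ℂ | -3 < w.re ∧ w.re < -(η / 2) ∧ |w.im| < 2} →
      (∀ w : ℂ, -2 ≤ w.re → w.re ≤ -η → |w.im| ≤ 1 → ‖f w‖ ≤ C * (-w.re) ^ ((1 : ℝ) / 4)) →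
      ‖f (-1)‖ < c

/-- CQ-K: weak Schwarz-Pick for discs in the ball -/
def S_K : Prop :=
  ∀ (n : ℕ) (ψ : ℂ → V n) (ρ : ℝ), 0 < ρ → DifferentiableOn ℂ ψ (ball 0 ρ) →
    (∀ ζ ∈ ball (0 : ℂ) ρ, ‖ψ ζ‖ ≤ 1) → ‖deriv ψ 0‖ ^ 2 * ρ ^ 2 ≤ 1 - ‖ψ 0‖ ^ 2

/-- CQ-SS: Schwarz lemma with a zero in a compact part of the disc -/
def S_SS : Prop :=
  ∀ (θ : ℝ), 0 < θ → θ < 1 → ∃ R0 : ℝ, R0 < 1 ∧ ∀ (n : ℕ) (φ : ℂ → V n) (a0 : ℂ) (L : ℝ),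
    0 < L → DifferentiableOn ℂ φ (ball a0 L) → (∀ ζ ∈ ball a0 L, ‖φ ζ‖ ≤ 1) →
    ∀ a ∈ closedBall a0 (θ * L), φ a = 0 → ∀ w ∈ closedBall a0 (θ * L), ‖φ w‖ ≤ R0

/-! ## Part IV: the main argument -/

/-- CQ-A2: localisation of the inverse maps and the weight bound on every ball of radius < 1 -/
def S_A2 : Prop :=
  ∀ (n k m : ℕ) (D : Set (V n)) (p : V n) (Φ : EE k → V n) (Ψ : V n → EE k)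
    (P : ℂ → ℝ) (C c C2 : ℝ), Sit m D p Φ Ψ P C c → 0 < C2 →
    ∀ R : ℝ, 0 < R → R < 1 → ∃ CR τ : ℝ, 0 < CR ∧ 0 < τ ∧
      ∀ (ξ : EE k) (δ ε : ℝ) (h : V n → V n), 0 < δ → δ < τ → ‖ξ‖ < τ → Wt m ξ ≤ C2 * δ →
        0 < ε → ε < τ → DifferentiableOn ℂ h (ball 0 (1 - ε)) → MapsTo h (ball 0 (1 - ε)) D →
        h 0 = Φ ξ → ∀ ζ : V n, ‖ζ‖ ≤ R →
          ‖Ψ (h ζ)‖ < c ∧ Φ (Ψ (h ζ)) = h ζ ∧ Wt m (Ψ (h ζ)) ≤ CR * δ ∧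
            ‖(Ψ (h ζ)).2.2 - ξ.2.2‖ ≤ CR * δ

/-- CQ-A6: Hopf type estimate -/
def S_A6 : Prop :=
  ∀ (n k m : ℕ) (D : Set (V n)) (p : V n) (Φ : EE k → V n) (Ψ : V n → EE k)
    (P : ℂ → ℝ) (C c C2 : ℝ), Sit m D p Φ Ψ P C c → 0 < C2 →
    ∃ κ : ℝ, 0 < κ ∧ ∀ R ε' : ℝ, 0 < R → R < 1 → 0 < ε' → ∃ τ : ℝ, 0 < τ ∧
      ∀ (ξ : EE k) (δ ε : ℝ) (h : V n → V n), 0 < δ → δ < τ → ‖ξ‖ < τ → Wt m ξ ≤ C2 * δ →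
        rho0 P ξ = -δ →
        0 < ε → ε < τ → DifferentiableOn ℂ h (ball 0 (1 - ε)) → MapsTo h (ball 0 (1 - ε)) D →
        h 0 = Φ ξ → ∀ ζ : V n, ‖ζ‖ ≤ R →
          rho0 P (Ψ (h ζ)) ≤ -(κ * δ * (R - ‖ζ‖)) + ε' * δ

/-- CQ-A7: the holomorphic function on the rectangle -/
def S_A7 : Prop :=
  ∀ (n k m : ℕ) (D : Set (V n)) (p : V n) (Φ : EE k → V n) (Ψ : V n → EE k)
    (P : ℂ → ℝ) (C c C2 : ℝ), Sit m D p Φ Ψ P C c → 0 < C2 →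
    ∃ C3 : ℝ, 0 < C3 ∧ ∀ η : ℝ, 0 < η → η < 1 → ∃ τ : ℝ, 0 < τ ∧
      ∀ (ξ : EE k) (δ ε : ℝ) (g : V n → V n), 0 < δ → δ < τ → ‖ξ‖ < τ →
        ‖ξ‖ ^ 2 ≤ C2 * δ → Wt m ξ ≤ C2 * δ → rho0 P ξ = -δ → 0 < ε → ε < τ →
        DifferentiableOn ℂ g D → InjOn g D → MapsTo g D (ball 0 1) → g (Φ ξ) = 0 →
        ball 0 (1 - ε) ⊆ g '' D →
        ∃ f : ℂ → V n, DifferentiableOn ℂ f {w : ℂ | -3 < w.re ∧ w.re < -(η / 2) ∧ |w.im| < 2} ∧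
          (∀ w : ℂ, -2 ≤ w.re → w.re ≤ -η → |w.im| ≤ 1 →
            ‖f w‖ ≤ C3 * (-w.re) ^ ((1 : ℝ) / 4)) ∧ 1 ≤ C3 * ‖f (-1)‖

end Pool.Agent.W722.Cq
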