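import Pool.Agent.W722.Cq.Main
import Pool.Agent.W722.Cq.Nf
import Pool.Agent.W722.Cq.A7
import Pool.Agent.W722.Cq.A6
import Pool.Agent.W722.Cq.PSC
import Pool.Agent.W417.CQ_LVC
import Pool.Agent.W417.CQ_LIN
import Pool.Agent.W417.CQ_QUAD
import Pool.Agent.W417.CQ_ALG
import Pool.Agent.W417.CQ_DER
import Pool.Agent.W320.CQ_EXT
import Pool.Agent.W320.CQ_LOW
import Pool.Agent.W320.CQ_HOM
import Pool.Agent.W320.CQ_RV
import Pool.Agent.W320.CQ_T2
import Pool.Agent.W320.CQ_T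
import Pool.Agent.W646.CQ.St1
import Pool.Agent.W646.CQ.St2
import Pool.Agent.W646.CQ.Asn
import Pool.Agent.W646.CQ.Par
import Pool.Agent.W240.CQ_Seq
import Pool.Agent.W965.CQ_Smc
import Pool.Agent.W135.CQ.Bump
import Pool.Agent.W120.CQ_POL
import Pool.Agent.W120.CQ_C
import Pool.Agent.W120.CQ_CP
import Pool.Agent.W120.CQ_HAD
import Pool.Agent.W120.CQ_F
import Pool.Agent.W120.CQ_K
import Pool.Agent.W85.CQ_A2

/-!
# Project CQ: putting the parts together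
-/

set_option autoImplicit false

namespace Pool.Agent.W722.Cq

theorem pDER : S_DER := Pool.Agent.W417.CQ.DER
theorem pHOM : S_HOM := W320.hom pDER
theorem pEXT : S_EXT := W320.ext pDER
theorem pALG : S_ALG := Pool.Agent.W417.CQ.ALG
theorem pNFN : S_NFN :=
  Pool.Agent.W646.CQ.nfn (Pool.Agent.W646.CQ.st1 pEXT pALG) (Pool.Agent.W646.CQ.st2 pEXT)
theorem pNF : S_NF :=
  NFthm PSC Pool.Agent.W417.CQ.LVC Pool.Agent.W417.CQ.LIN Pool.Agent.W417.CQ.QUAD pNFN pDER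
    W320.low pHOM (W320.rv pDER pHOM W320.low) (W320.t2 pDER) Pool.Agent.W646.CQ.asn
theorem pPOL : S_POL := Pool.Agent.W120.CQPOL.POL
theorem pSMC : S_SMC := Pool.Agent.W965.CQ.smc
theorem pBUMP : S_BUMP := Pool.Agent.W135.CQ.bump pHOM
theorem pB : S_B := Pool.Agent.W120.CQPOL.B pSMC pBUMP
theorem pCP : S_CP := Pool.Agent.W120.CQCP.CP (Pool.Agent.W120.CQC.C pB pPOL)
theorem pA2 : S_A2 := Pool.Agent.W85.CQ.a2 pCP W320.t
theorem pA6 : S_A6 := A6 pPOL pSMC Pool.Agent.W120.CQHAD.HAD pA2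
theorem pA7 : S_A7 := A7 pPOL Pool.Agent.W120.CQK.K Pool.Agent.W120.CQK.SS pA2 pA6
theorem pF : S_F := Pool.Agent.W120.CQF.F
theorem pPAR : S_PAR := Pool.Agent.W646.CQ.par
theorem pSEQ : S_SEQ := Pool.Agent.W240.CQ.seq

end Pool.Agent.W722.Cq
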