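import Pool.Agent.W722.Cq.Stm

/-!
# Project CQ: the local inverse and the situation
-/

set_option autoImplicit false

open Metric Set Filter Topology Asymptotics

namespace Pool.Agent.W722.Cq

theorem INV : S_INV := by
  intro n k m D U r p Φ P hnf hD hDb hU hpU hDU
  obtain ⟨e, he⟩ := hnf.inv
  have hΦ := hnf.hol
  have hdiff : Differentiable ℂ Φ := hΦ.differentiable (by simp)
  have hfd : HasFDerivAt Φ (e : EE k →L[ℂ] V n) 0 := by
    rw [he]; exact (hdiff 0).hasFDerivAt
  have hca : ContDiffAt ℂ ((⊤ : ℕ∞) : WithTop ℕ∞) Φ 0 := hΦ.contDiffAt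
  set F := hca.toOpenPartialHomeomorph Φ hfd (by simp) with hF
  have hFc : (F : EE k → V n) = Φ := hca.toOpenPartialHomeomorph_coe hfd (by simp)
  have h0s : (0 : EE k) ∈ F.source := hca.mem_toOpenPartialHomeomorph_source hfd (by simp)
  have hpt : p ∈ F.target := by
    have := F.map_source h0s
    rwa [hFc, hnf.zero] at this
  -- invertible derivative near 0
  have hinv : ∀ᶠ z in 𝓝 (0 : EE k), ∃ f : EE k ≃L[ℂ] V n, (f : EE k →L[ℂ] V n) = fderiv ℂ Φ z := by
    have h1 : ContinuousAt (fderiv ℂ Φ) 0 :=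
      (hΦ.continuous_fderiv (by simp)).continuousAt
    have h2 : range ((↑) : (EE k ≃L[ℂ] V n) → EE k →L[ℂ] V n) ∈ 𝓝 (fderiv ℂ Φ 0) := by
      rw [← he]; exact e.nhds
    filter_upwards [h1.preimage_mem_nhds h2] with z hz
    exact hz
  -- Lipschitz bound
  obtain ⟨L, hL0, hL⟩ : ∃ L : ℝ, 0 < L ∧ ∀ᶠ z in 𝓝 (0 : EE k), ‖Φ z - p‖ ≤ L * ‖z‖ := by
    have h1 := hfd.isBigO_sub
    obtain ⟨L, hL0, h2⟩ := h1.exists_pos
    refine ⟨L, hL0, ?_⟩
    filter_upwards [h2.bound] with z hz
    rw [hnf.zero, sub_zero] at hz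
    exact hz
  have hUev : ∀ᶠ z in 𝓝 (0 : EE k), Φ z ∈ U := by
    have : U ∈ 𝓝 (Φ 0) := by rw [hnf.zero]; exact hU.mem_nhds hpU
    exact hdiff.continuous.continuousAt.preimage_mem_nhds this
  obtain ⟨C0, c0, hC0, hc0, hest⟩ := hnf.est
  have hsrc : ∀ᶠ z in 𝓝 (0 : EE k), z ∈ F.source := F.open_source.mem_nhds h0s
  obtain ⟨δ, hδ, hall⟩ := Metric.eventually_nhds_iff_ball.1
    (hinv.and (hL.and (hUev.and hsrc)))
  obtain ⟨B, hB⟩ := hDb.exists_norm_le
  set C : ℝ := max (max 1 L) (max C0 (|B| + ‖p‖)) with hC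
  have hCa : 1 ≤ C := (le_max_left _ _).trans (le_max_left _ _)
  have hCb : L ≤ C := (le_max_right _ _).trans (le_max_left _ _)
  have hCc : C0 ≤ C := (le_max_left _ _).trans (le_max_right _ _)
  have hCd : |B| + ‖p‖ ≤ C := (le_max_right _ _).trans (le_max_right _ _)
  set c : ℝ := min (min 1 δ) c0 with hc
  have hcpos : 0 < c := lt_min (lt_min one_pos hδ) hc0
  have hc1 : c ≤ 1 := (min_le_left _ _).trans (min_le_left _ _)
  have hcδ : c ≤ δ := (min_le_left _ _).trans (min_le_right _ _)
  have hcc0 : c ≤ c0 := min_le_right _ _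
  have hmem : ∀ z : EE k, ‖z‖ < c → z ∈ ball (0 : EE k) δ := fun z hz =>
    mem_ball_zero_iff.2 (hz.trans_le hcδ)
  have hest' : ∀ z : EE k, ‖z‖ < c → |r (Φ z) - rho0 P z| ≤ C * ‖z‖ * Wt m z := by
    intro z hz
    refine (hest z (hz.trans_le hcc0)).trans ?_
    have : 0 ≤ Wt m z := by unfold Wt; positivity
    gcongr
  refine ⟨F.symm, C, c, ?_⟩
  exact
    { two := hnf.two
      C1 := hCa
      c0 := hcpos
      c1 := hc1
      pol := hnf.pol
      bdd := by
        intro x hx
        refine (norm_sub_le _ _).trans (le_trans ?_ hCd)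
        have := (hB x hx).trans (le_abs_self B)
        linarith
      opn := hD
      hol := hΦ
      inv1 := by
        intro z hz
        obtain ⟨⟨f, hf⟩, h2, h3, h4⟩ := hall z (hmem z hz)
        have h5 : F.symm (Φ z) = z := by
          have := F.left_inv h4
          rwa [hFc] at this
        refine ⟨h5, h2.trans (by gcongr), ?_⟩
        have h6 : Φ z ∈ F.target := by
          have := F.map_source h4
          rwa [hFc] at this
        have h7 : ContDiffAt ℂ ((⊤ : ℕ∞) : WithTop ℕ∞) F.symm (Φ z) := by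
          refine F.contDiffAt_symm (f₀' := f) h6 ?_ ?_
          · rw [h5, hFc, hf]; exact (hdiff z).hasFDerivAt
          · rw [h5, hFc]; exact hΦ.contDiffAt
        exact h7.differentiableAt (by simp)
      inv2 := by
        intro a ha
        have h1 : ContinuousAt F.symm p := F.continuousAt_symm hpt
        have hs0 : F.symm p = 0 := by
          have := F.left_inv h0s
          rwa [hFc, hnf.zero] at this
        have h2 : ∀ᶠ x in 𝓝 p, ‖F.symm x‖ < a := by
          apply h1.norm.eventually_lt continuousAt_const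
          rw [hs0, norm_zero]; exact ha
        have h3 : ∀ᶠ x in 𝓝 p, x ∈ F.target := F.open_target.mem_nhds hpt
        obtain ⟨b, hb, hb2⟩ := Metric.eventually_nhds_iff_ball.1 (h2.and h3)
        refine ⟨b, hb, fun x hx => ?_⟩
        obtain ⟨h4, h5⟩ := hb2 x (by rw [mem_ball, dist_eq_norm]; exact hx)
        refine ⟨h4, ?_⟩
        have := F.right_inv h5
        rwa [hFc] at this
      inside := by
        intro z hz hzD
        have h1 : Φ z ∈ D ∩ U := ⟨hzD, (hall z (hmem z hz)).2.2.1⟩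
        rw [hDU] at h1
        have h2 := (abs_le.1 (hest' z hz)).1
        linarith [h1.2]
      outside := by
        intro z hz hzr
        have h2 := (abs_le.1 (hest' z hz)).2
        have h1 : Φ z ∈ {z | z ∈ U ∧ r z < 0} := ⟨(hall z (hmem z hz)).2.2.1, by linarith⟩
        rw [← hDU] at h1
        exact h1.1 }

end Pool.Agent.W722.Cq
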