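import Pool.Agent.W722.Cq.A7a

/-!
# Project CQ: preparations for A6
-/

set_option autoImplicit false

open Metric Set Filter Topology Asymptotics

namespace Pool.Agent.W722.Cq

theorem Wt_re {k : ℕ} (m : ℕ) (z : EE k) : |z.2.2.re| ≤ Wt m z := by
  unfold Wt
  have h1 := sq_nonneg z.2.2.im
  have h2 := sq_nonneg ‖z.2.1‖
  have h3 : 0 ≤ ‖z.1‖ ^ (2 * m) := by positivity
  linarith

theorem Wt_im {k : ℕ} (m : ℕ) (z : EE k) : z.2.2.im ^ 2 ≤ Wt m z := by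
  unfold Wt
  have h1 := abs_nonneg z.2.2.re
  have h2 := sq_nonneg ‖z.2.1‖
  have h3 : 0 ≤ ‖z.1‖ ^ (2 * m) := by positivity
  linarith

theorem Wt_y {k : ℕ} (m : ℕ) (z : EE k) : ‖z.2.1‖ ^ 2 ≤ Wt m z := by
  unfold Wt
  have h1 := abs_nonneg z.2.2.re
  have h2 := sq_nonneg z.2.2.im
  have h3 : 0 ≤ ‖z.1‖ ^ (2 * m) := by positivity
  linarith

theorem Wt_x {k : ℕ} (m : ℕ) (z : EE k) : ‖z.1‖ ^ (2 * m) ≤ Wt m z := by
  unfold Wt
  have h1 := abs_nonneg z.2.2.re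
  have h2 := sq_nonneg z.2.2.im
  have h3 := sq_nonneg ‖z.2.1‖
  linarith

theorem norm_small (m : ℕ) (hm : 1 ≤ m) {μ : ℝ} (hμ : 0 < μ) :
    ∃ ω : ℝ, 0 < ω ∧ ∀ (k : ℕ) (z : EE k), Wt m z ≤ ω → ‖z‖ ≤ μ := by
  refine ⟨min (min (μ / 2) ((μ / 2) ^ 2)) (μ ^ (2 * m)), by positivity, fun k z hz => ?_⟩
  have h1 := (Wt_re m z).trans (hz.trans ((min_le_left _ _).trans (min_le_left _ _)))
  have h2 := (Wt_im m z).trans (hz.trans ((min_le_left _ _).trans (min_le_right _ _)))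
  have h3 := (Wt_y m z).trans (hz.trans ((min_le_left _ _).trans (min_le_right _ _)))
  have h4 := (Wt_x m z).trans (hz.trans (min_le_right _ _))
  have hx : ‖z.1‖ ≤ μ := le_of_pow_le_pow_left₀ (by omega : 2 * m ≠ 0) hμ.le h4
  have hy : ‖z.2.1‖ ≤ μ / 2 := le_of_pow_le_pow_left₀ two_ne_zero (by positivity) h3
  have him : |z.2.2.im| ≤ μ / 2 := by
    refine le_of_pow_le_pow_left₀ two_ne_zero (by positivity) ?_
    rw [sq_abs]
    exact h2
  have hw : ‖z.2.2‖ ≤ μ := by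
    have := Complex.norm_le_abs_re_add_abs_im z.2.2
    linarith
  rw [Prod.norm_def, Prod.norm_def]
  exact max_le hx (max_le (by linarith) hw)

theorem submean {k : ℕ} {P : ℂ → ℝ} (hSMC : S_SMC) (hPc : ContDiff ℝ 2 P)
    (hPs : ∀ x, 0 ≤ Lap P x) {γ : ℂ → EE k} {R : ℝ} (hγ : DifferentiableOn ℂ γ (ball 0 R))
    {ζ : ℂ} (hζ : ζ ∈ ball (0 : ℂ) R) :
    ∀ᶠ s in 𝓝[>] (0 : ℝ), rho0 P (γ ζ) ≤ Real.circleAverage (fun l => rho0 P (γ l)) ζ s := by
  have hζR : ‖ζ‖ < R := mem_ball_zero_iff.1 hζ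
  filter_upwards [Ioo_mem_nhdsGT (show (0 : ℝ) < R - ‖ζ‖ by linarith)] with s hs
  obtain ⟨hs0, hs1⟩ := hs
  have hsub' : ball ζ (R - ‖ζ‖) ⊆ ball 0 R := by
    intro l hl
    rw [mem_ball, dist_eq_norm] at hl
    rw [mem_ball_zero_iff]
    have : ‖l‖ ≤ ‖l - ζ‖ + ‖ζ‖ := by simpa using norm_add_le (l - ζ) ζ
    linarith
  have hsub : closedBall ζ s ⊆ ball 0 R := (closedBall_subset_ball hs1).trans hsub'
  set a : V k := (γ ζ).2.1 with ha
  set G : ℂ → ℂ := fun l => 2 * innerSL ℂ a (γ l).2.1 - ((‖a‖ ^ 2 : ℝ) : ℂ) + (γ l).2.2 with hG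
  have hGd : DifferentiableOn ℂ G (ball 0 R) := by
    have h1 : DifferentiableOn ℂ (fun l => innerSL ℂ a (γ l).2.1) (ball 0 R) :=
      (innerSL ℂ a).differentiable.comp_differentiableOn hγ.snd.fst
    exact ((h1.const_mul 2).sub_const _).add hγ.snd.snd
  have hGavg : Real.circleAverage G ζ s = G ζ := by
    apply DiffContOnCl.circleAverage
    rw [abs_of_pos hs0]
    exact hGd.diffContOnCl_ball hsub
  have hGint : CircleIntegrable G ζ s :=
    (hGd.continuousOn.mono (sphere_subset_closedBall.trans hsub)).circleIntegrable hs0.le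
  have hGre : Real.circleAverage (fun l => (G l).re) ζ s = (G ζ).re := by
    have h1 := Complex.reCLM.circleAverage_comp_comm hGint
    rw [hGavg] at h1
    exact h1
  have hS := hSMC P hPc hPs (fun l => (γ l).1) ζ s (R - ‖ζ‖) hs0 hs1 (hγ.fst.mono hsub')
  have hcont : ContinuousOn γ (sphere ζ s) :=
    hγ.continuousOn.mono (sphere_subset_closedBall.trans hsub)
  have hPcont : Continuous P := hPc.continuous
  have hint1 : CircleIntegrable (fun l => (G l).re) ζ s := by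
    refine ContinuousOn.circleIntegrable hs0.le ?_
    exact Complex.continuous_re.comp_continuousOn
      (hGd.continuousOn.mono (sphere_subset_closedBall.trans hsub))
  have hint2 : CircleIntegrable (fun l => P (γ l).1) ζ s := by
    refine ContinuousOn.circleIntegrable hs0.le ?_
    exact hPcont.comp_continuousOn hcont.fst
  have hint3 : CircleIntegrable (fun l => rho0 P (γ l)) ζ s := by
    refine ContinuousOn.circleIntegrable hs0.le ?_
    unfold rho0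
    exact ((Complex.continuous_re.comp_continuousOn hcont.snd.snd).add
      (hcont.snd.fst.norm.pow 2)).add (hPcont.comp_continuousOn hcont.fst)
  have hle : Real.circleAverage (fun l => (G l).re + P (γ l).1) ζ s ≤
      Real.circleAverage (fun l => rho0 P (γ l)) ζ s := by
    refine Real.circleAverage_mono (hint1.add hint2) hint3 ?_
    intro l _
    simp only [hG, rho0, innerSL_apply_apply]
    have h1 : ‖(γ l).2.1 - a‖ ^ 2 = ‖(γ l).2.1‖ ^ 2 - 2 * (inner ℂ a (γ l).2.1 : ℂ).re + ‖a‖ ^ 2 := by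
      rw [@norm_sub_sq ℂ, ← inner_conj_symm, RCLike.re_to_complex, Complex.conj_re]
    have h2 : 0 ≤ ‖(γ l).2.1 - a‖ ^ 2 := by positivity
    simp only [Complex.add_re, Complex.sub_re, Complex.mul_re, Complex.ofReal_re]
    norm_num
    rw [h1] at h2
    have h3 : ((2:ℂ).im) = 0 := by simp
    nlinarith
  have heq : rho0 P (γ ζ) = (G ζ).re + P (γ ζ).1 := by
    have h1 : (inner ℂ a a : ℂ) = ((‖a‖ ^ 2 : ℝ) : ℂ) := by
      rw [inner_self_eq_norm_sq_to_K]; norm_cast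
    simp only [hG, rho0, innerSL_apply_apply, ← ha]
    rw [h1]
    simp only [Complex.add_re, Complex.sub_re, Complex.mul_re, Complex.ofReal_re,
      Complex.ofReal_im, mul_zero, sub_zero, Complex.re_ofNat]
    ring
  rw [Real.circleAverage_fun_add hint1 hint2, hGre] at hle
  rw [heq]
  linarith

/-- gradient type estimate at unit scale -/
theorem grad_est {k m : ℕ} (hm : 1 ≤ m) {P : ℂ → ℝ} {CP : ℝ} (hCP : 0 < CP)
    (hP : ∀ x x' : ℂ, |P x - P x'| ≤ CP * ‖x - x'‖ * (‖x‖ + ‖x'‖) ^ (2 * m - 1))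
    {γ : ℂ → EE k} {C4 δ : ℝ} (hC4 : 0 < C4) (hδ : 0 < δ)
    (hγ : DifferentiableOn ℂ γ (ball 0 (1 / 4)))
    (hW : ∀ l ∈ ball (0 : ℂ) (1 / 4), Wt m (γ l) ≤ C4 * δ ∧ ‖(γ l).2.2 - (γ 0).2.2‖ ≤ C4 * δ)
    {l : ℂ} (hl : ‖l‖ < 1 / 8) :
    |rho0 P (γ l) - rho0 P (γ 0)| ≤ (48 * C4 + CP * 16 * 2 ^ (2 * m) * C4) * ‖l‖ * δ := by
  have h0 : (0 : ℂ) ∈ ball (0 : ℂ) ((1 / 4 : ℝ) / 2) := mem_ball_self (by norm_num)
  have hl' : l ∈ ball (0 : ℂ) ((1 / 4 : ℝ) / 2) := by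
    rw [mem_ball_zero_iff]; linarith
  have hl4 : l ∈ ball (0 : ℂ) (1 / 4) := by
    rw [mem_ball_zero_iff]; linarith
  have h04 : (0 : ℂ) ∈ ball (0 : ℂ) (1 / 4) := mem_ball_self (by norm_num)
  have hCδ : 0 < C4 * δ := by positivity
  set X : ℝ := (C4 * δ) ^ ((1 : ℝ) / (2 * m)) with hX
  have hmR : (1 : ℝ) ≤ m := by exact_mod_cast hm
  have hX0 : 0 < X := Real.rpow_pos_of_pos hCδ _
  have hXp : X ^ (2 * m) = C4 * δ := by
    rw [hX, ← Real.rpow_natCast, ← Real.rpow_mul hCδ.le]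
    have : (1 : ℝ) / (2 * m) * ((2 * m : ℕ) : ℝ) = 1 := by push_cast; field_simp
    rw [this, Real.rpow_one]
  have hxb : ∀ z ∈ ball (0 : ℂ) (1 / 4), ‖(γ z).1‖ ≤ X := by
    intro z hz
    apply le_of_pow_le_pow_left₀ (by omega : 2 * m ≠ 0) hX0.le
    rw [hXp]
    exact (Wt_x m _).trans (hW z hz).1
  set Y : ℝ := Real.sqrt (C4 * δ) with hY
  have hYp : Y ^ 2 = C4 * δ := Real.sq_sqrt hCδ.le
  have hY0 : 0 ≤ Y := Real.sqrt_nonneg _
  have hyb : ∀ z ∈ ball (0 : ℂ) (1 / 4), ‖(γ z).2.1‖ ≤ Y := by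
    intro z hz
    apply le_of_pow_le_pow_left₀ two_ne_zero hY0
    rw [hYp]
    exact (Wt_y m _).trans (hW z hz).1
  have hx := Pool.Agent.Helper540.lipschitz_half hγ.fst hxb h0 hl'
  have hy := Pool.Agent.Helper540.lipschitz_half hγ.snd.fst hyb h0 hl'
  have hw := Pool.Agent.Helper540.lipschitz_half (hγ.snd.snd.sub_const (γ 0).2.2)
    (fun z hz => (hW z hz).2) h0 hl'
  simp only [sub_zero, sub_self] at hx hy hw
  have hPx : |P (γ l).1 - P (γ 0).1| ≤ CP * 16 * 2 ^ (2 * m) * C4 * ‖l‖ * δ := by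
    refine (hP _ _).trans ?_
    have h1 : ‖(γ l).1 - (γ 0).1‖ ≤ 16 * X * ‖l‖ := by
      refine hx.trans (le_of_eq ?_); ring
    have h2 : (‖(γ l).1‖ + ‖(γ 0).1‖) ^ (2 * m - 1) ≤ (2 * X) ^ (2 * m - 1) := by
      apply pow_le_pow_left₀ (by positivity)
      have := hxb l hl4
      have := hxb 0 h04
      linarith
    calc CP * ‖(γ l).1 - (γ 0).1‖ * (‖(γ l).1‖ + ‖(γ 0).1‖) ^ (2 * m - 1)
        ≤ CP * (16 * X * ‖l‖) * (2 * X) ^ (2 * m - 1) := by gcongr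
      _ = CP * 16 * 2 ^ (2 * m - 1) * (X * X ^ (2 * m - 1)) * ‖l‖ := by rw [mul_pow]; ring
      _ = CP * 16 * 2 ^ (2 * m - 1) * (C4 * δ) * ‖l‖ := by
          rw [← pow_succ', show 2 * m - 1 + 1 = 2 * m by omega, hXp]
      _ ≤ CP * 16 * 2 ^ (2 * m) * (C4 * δ) * ‖l‖ := by
          gcongr
          · norm_num
          · omega
      _ = _ := by ring
  have hyy : |‖(γ l).2.1‖ ^ 2 - ‖(γ 0).2.1‖ ^ 2| ≤ 32 * C4 * ‖l‖ * δ := by
    have h1 : |‖(γ l).2.1‖ - ‖(γ 0).2.1‖| ≤ 16 * Y * ‖l‖ := by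
      refine (abs_norm_sub_norm_le _ _).trans (hy.trans (le_of_eq ?_)); ring
    have h2 : |‖(γ l).2.1‖ + ‖(γ 0).2.1‖| ≤ 2 * Y := by
      rw [abs_of_nonneg (by positivity)]
      have := hyb l hl4
      have := hyb 0 h04
      linarith
    calc |‖(γ l).2.1‖ ^ 2 - ‖(γ 0).2.1‖ ^ 2|
        = |‖(γ l).2.1‖ + ‖(γ 0).2.1‖| * |‖(γ l).2.1‖ - ‖(γ 0).2.1‖| := by
          rw [← abs_mul]; congr 1; ring
      _ ≤ (2 * Y) * (16 * Y * ‖l‖) := by gcongr
      _ = 32 * Y ^ 2 * ‖l‖ := by ring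
      _ = _ := by rw [hYp]; ring
  have hww : |(γ l).2.2.re - (γ 0).2.2.re| ≤ 16 * C4 * ‖l‖ * δ := by
    rw [← Complex.sub_re]
    refine (Complex.abs_re_le_norm _).trans (hw.trans (le_of_eq ?_))
    ring
  have e : rho0 P (γ l) - rho0 P (γ 0) = ((γ l).2.2.re - (γ 0).2.2.re) +
      (‖(γ l).2.1‖ ^ 2 - ‖(γ 0).2.1‖ ^ 2) + (P (γ l).1 - P (γ 0).1) := by
    unfold rho0; ring
  rw [e]
  refine (abs_add_three _ _ _).trans ?_
  linarith

end Pool.Agent.W722.Cq
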