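import Pool.Agent.W722.Cq.Stm
import Pool.Agent.Helper540.Osgood

/-!
# Project CQ: geometry of the path and of the discs used in A7
-/

set_option autoImplicit false

open Metric Set Filter Topology Asymptotics

namespace Pool.Agent.W722.Cq

/-- the point `ξ + (ζ, 0, (w + 1) δ)` -/
noncomputable def pt {k : ℕ} (ξ : EE k) (δ : ℝ) (w ζ : ℂ) : EE k :=
  (ξ.1 + ζ, ξ.2.1, ξ.2.2 + (w + 1) * (δ : ℂ))

theorem pt_zero {k : ℕ} (ξ : EE k) (δ : ℝ) : pt ξ δ (-1) 0 = ξ := by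
  simp [pt]

theorem Wt_nonneg {k : ℕ} (m : ℕ) (z : EE k) : 0 ≤ Wt m z := by
  unfold Wt; positivity

theorem norm1_le {k : ℕ} (z : EE k) : ‖z.1‖ ≤ ‖z‖ := norm_fst_le z
theorem norm21_le {k : ℕ} (z : EE k) : ‖z.2.1‖ ≤ ‖z‖ := (norm_fst_le z.2).trans (norm_snd_le z)
theorem norm22_le {k : ℕ} (z : EE k) : ‖z.2.2‖ ≤ ‖z‖ := (norm_snd_le z.2).trans (norm_snd_le z)

theorem norm_pt_le {k : ℕ} (ξ : EE k) (δ : ℝ) (hδ : 0 ≤ δ) (w ζ : ℂ) :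
    ‖pt ξ δ w ζ‖ ≤ ‖ξ‖ + ‖ζ‖ + ‖w + 1‖ * δ := by
  have h1 : ‖ξ.1 + ζ‖ ≤ ‖ξ‖ + ‖ζ‖ + ‖w + 1‖ * δ := by
    have := norm_add_le ξ.1 ζ
    have := norm1_le ξ
    have : 0 ≤ ‖w + 1‖ * δ := by positivity
    linarith
  have h2 : ‖ξ.2.1‖ ≤ ‖ξ‖ + ‖ζ‖ + ‖w + 1‖ * δ := by
    have := norm21_le ξ
    have : 0 ≤ ‖w + 1‖ * δ := by positivity
    have := norm_nonneg ζ
    linarith
  have h3 : ‖ξ.2.2 + (w + 1) * (δ : ℂ)‖ ≤ ‖ξ‖ + ‖ζ‖ + ‖w + 1‖ * δ := by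
    have h := norm_add_le ξ.2.2 ((w + 1) * (δ : ℂ))
    rw [norm_mul, Complex.norm_real, Real.norm_of_nonneg hδ] at h
    have := norm22_le ξ
    have := norm_nonneg ζ
    linarith
  unfold pt
  rw [Prod.norm_def, Prod.norm_def]
  simp only
  exact max_le h1 (max_le h2 h3)

theorem rho0_pt {k : ℕ} (P : ℂ → ℝ) (ξ : EE k) (δ : ℝ) (w ζ : ℂ) (h : rho0 P ξ = -δ) :
    rho0 P (pt ξ δ w ζ) = δ * w.re + (P (ξ.1 + ζ) - P ξ.1) := by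
  unfold rho0 at *
  unfold pt
  simp only [Complex.add_re, Complex.mul_re, Complex.ofReal_re, Complex.ofReal_im, Complex.one_re,
    mul_zero, sub_zero]
  linarith

theorem add_pow_le_two {a b : ℝ} (ha : 0 ≤ a) (hb : 0 ≤ b) (n : ℕ) :
    (a + b) ^ n ≤ 2 ^ n * (a ^ n + b ^ n) := by
  have h1 : a + b ≤ 2 * max a b := by
    have := le_max_left a b
    have := le_max_right a b
    linarith
  have h2 : (a + b) ^ n ≤ (2 * max a b) ^ n := pow_le_pow_left₀ (by positivity) h1 n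
  rw [mul_pow] at h2
  have h3 : (max a b) ^ n ≤ a ^ n + b ^ n := by
    rcases le_total a b with h | h
    · rw [max_eq_right h]; have := pow_nonneg ha n; linarith
    · rw [max_eq_left h]; have := pow_nonneg hb n; linarith
  calc (a + b) ^ n ≤ 2 ^ n * (max a b) ^ n := h2
    _ ≤ _ := by gcongr

theorem Wt_pt_le {k : ℕ} (m : ℕ) (ξ : EE k) (δ : ℝ) (hδ : 0 ≤ δ) (hδ1 : δ ≤ 1) (w ζ : ℂ) :
    Wt m (pt ξ δ w ζ) ≤ 2 * 2 ^ (2 * m) * Wt m ξ + 3 * (1 + ‖w + 1‖) ^ 2 * δ +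
      2 ^ (2 * m) * ‖ζ‖ ^ (2 * m) := by
  have hre : |(ξ.2.2 + (w + 1) * (δ : ℂ)).re| ≤ |ξ.2.2.re| + ‖w + 1‖ * δ := by
    rw [Complex.add_re]
    refine (abs_add_le _ _).trans ?_
    have : |((w + 1) * (δ : ℂ)).re| ≤ ‖(w + 1) * (δ : ℂ)‖ := Complex.abs_re_le_norm _
    rw [norm_mul, Complex.norm_real, Real.norm_of_nonneg hδ] at this
    linarith
  have him : (ξ.2.2 + (w + 1) * (δ : ℂ)).im ^ 2 ≤ 2 * ξ.2.2.im ^ 2 + 2 * (‖w + 1‖ * δ) ^ 2 := by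
    rw [Complex.add_im]
    have : |((w + 1) * (δ : ℂ)).im| ≤ ‖(w + 1) * (δ : ℂ)‖ := Complex.abs_im_le_norm _
    rw [norm_mul, Complex.norm_real, Real.norm_of_nonneg hδ] at this
    have h2 : ((w + 1) * (δ : ℂ)).im ^ 2 ≤ (‖w + 1‖ * δ) ^ 2 := by
      rw [← sq_abs (((w + 1) * (δ : ℂ)).im)]
      exact pow_le_pow_left₀ (abs_nonneg _) this 2
    nlinarith [sq_nonneg (ξ.2.2.im - ((w + 1) * (δ : ℂ)).im)]
  have hx : ‖ξ.1 + ζ‖ ^ (2 * m) ≤ 2 ^ (2 * m) * (‖ξ.1‖ ^ (2 * m) + ‖ζ‖ ^ (2 * m)) :=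
    (pow_le_pow_left₀ (norm_nonneg _) (norm_add_le _ _) _).trans
      (add_pow_le_two (norm_nonneg _) (norm_nonneg _) _)
  have hp : (1 : ℝ) ≤ 2 ^ (2 * m) := one_le_pow₀ (by norm_num)
  have hy : ‖ξ.2.1‖ ^ 2 ≤ 2 ^ (2 * m) * ‖ξ.2.1‖ ^ 2 := le_mul_of_one_le_left (by positivity) hp
  have hu : |ξ.2.2.re| ≤ 2 ^ (2 * m) * |ξ.2.2.re| := le_mul_of_one_le_left (by positivity) hp
  have hs : ξ.2.2.im ^ 2 ≤ 2 ^ (2 * m) * ξ.2.2.im ^ 2 := le_mul_of_one_le_left (by positivity) hp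
  have hB : ‖w + 1‖ * δ + 2 * (‖w + 1‖ * δ) ^ 2 ≤ 3 * (1 + ‖w + 1‖) ^ 2 * δ := by
    set B := ‖w + 1‖ with hBd
    have hB0 : 0 ≤ B := norm_nonneg _
    have h1 : (B * δ) ^ 2 ≤ B ^ 2 * δ := by
      rw [mul_pow]
      have : δ ^ 2 ≤ δ := by nlinarith
      exact mul_le_mul_of_nonneg_left this (by positivity)
    nlinarith [mul_nonneg hB0 hδ, mul_nonneg (sq_nonneg B) hδ]
  unfold Wt pt
  simp only
  have e1 : 0 ≤ 2 ^ (2 * m) * ‖ξ.2.1‖ ^ 2 := by positivity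
  have e2 : 0 ≤ 2 ^ (2 * m) * |ξ.2.2.re| := by positivity
  have e3 : 0 ≤ 2 ^ (2 * m) * ‖ξ.1‖ ^ (2 * m) := by positivity
  nlinarith [hre, him, hx, hy, hu, hs, hB, e1, e2, e3]

/-- discs and paths stay in the domain -/
theorem inD {n k m : ℕ} {D : Set (V n)} {p : V n} {Φ : EE k → V n} {Ψ : V n → EE k}
    {P : ℂ → ℝ} {C c : ℝ} (hS : Sit m D p Φ Ψ P C c) {CP : ℝ} (hCP : 0 < CP)
    (hP : ∀ x x' : ℂ, |P x - P x'| ≤ CP * ‖x - x'‖ * (‖x‖ + ‖x'‖) ^ (2 * m - 1))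
    {C2 : ℝ} (hC2 : 0 < C2) {c' : ℝ} (hc'0 : 0 < c') (hc' : CP * 2 ^ (2 * m + 1) * c' ≤ 1)
    (hc'1 : c' ≤ 1)
    {B η : ℝ} (hB : 0 < B) (hη : 0 < η) :
    ∃ τ : ℝ, 0 < τ ∧ ∀ (ξ : EE k) (δ : ℝ), 0 < δ → δ < τ → ‖ξ‖ < τ → ‖ξ‖ ^ 2 ≤ C2 * δ →
      Wt m ξ ≤ C2 * δ → rho0 P ξ = -δ → ∀ w ζ : ℂ, ‖w + 1‖ ≤ B → w.re ≤ -η →
        ‖ζ‖ ^ (2 * m) ≤ c' * (-w.re) * δ → ‖pt ξ δ w ζ‖ < c ∧ Φ (pt ξ δ w ζ) ∈ D := by
  have hm : 2 ≤ m := hS.two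
  -- constants
  set KB : ℝ := 2 * 2 ^ (2 * m) * C2 + 3 * (1 + B) ^ 2 + 2 ^ (2 * m) * (B + 1) with hKB
  have hKBpos : 0 < KB := by positivity
  have hCpos : 0 < C := lt_of_lt_of_le one_pos hS.C1
  set μ : ℝ := min (c / 4) (η / (16 * C * KB)) with hμ
  have hμpos : 0 < μ := lt_min (by have := hS.c0; positivity) (by positivity)
  set A : ℝ := CP * 4 ^ (2 * m) * C2 ^ m with hA
  have hApos : 0 < A := by positivity
  set τ : ℝ := min (min 1 μ) (min (μ / (B + 1)) (min (η / (4 * A)) (μ ^ (2 * m) / (B + 1)))) with hτ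
  have hτpos : 0 < τ := by
    refine lt_min (lt_min one_pos hμpos) (lt_min (by positivity) (lt_min (by positivity) ?_))
    positivity
  have t1 : τ ≤ 1 := (min_le_left _ _).trans (min_le_left _ _)
  have t2 : τ ≤ μ := (min_le_left _ _).trans (min_le_right _ _)
  have t3 : τ ≤ μ / (B + 1) := (min_le_right _ _).trans (min_le_left _ _)
  have t4 : τ ≤ η / (4 * A) := (min_le_right _ _).trans ((min_le_right _ _).trans (min_le_left _ _))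
  have t5 : τ ≤ μ ^ (2 * m) / (B + 1) :=
    (min_le_right _ _).trans ((min_le_right _ _).trans (min_le_right _ _))
  refine ⟨τ, hτpos, fun ξ δ hδ hδτ hξ hξ2 hWξ hρ w ζ hw hwre hζ => ?_⟩
  have hδ1 : δ ≤ 1 := hδτ.le.trans t1
  have ht : 0 < -w.re := by linarith
  have htB : -w.re ≤ B + 1 := by
    have h1 : |(w + 1).re| ≤ ‖w + 1‖ := Complex.abs_re_le_norm _
    rw [Complex.add_re, Complex.one_re] at h1
    have := neg_abs_le (w.re + 1)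
    linarith
  -- size of ζ
  have hζμ : ‖ζ‖ ≤ μ := by
    by_contra hcon
    push Not at hcon
    have h1 : μ ^ (2 * m) < ‖ζ‖ ^ (2 * m) := pow_lt_pow_left₀ hcon hμpos.le (by omega)
    have h2 : c' * (-w.re) * δ ≤ μ ^ (2 * m) := by
      have h3 : c' * (-w.re) ≤ B + 1 := by nlinarith
      have h4 : δ ≤ μ ^ (2 * m) / (B + 1) := hδτ.le.trans t5
      calc c' * (-w.re) * δ ≤ (B + 1) * δ := by gcongr
        _ ≤ (B + 1) * (μ ^ (2 * m) / (B + 1)) := by gcongr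
        _ = μ ^ (2 * m) := by field_simp
    linarith
  have hBδ : ‖w + 1‖ * δ ≤ μ := by
    have h4 : δ ≤ μ / (B + 1) := hδτ.le.trans t3
    calc ‖w + 1‖ * δ ≤ (B + 1) * (μ / (B + 1)) := by
          apply mul_le_mul (by linarith) h4 hδ.le (by positivity)
      _ = μ := by field_simp
  have hnorm : ‖pt ξ δ w ζ‖ < 4 * μ := by
    have := norm_pt_le ξ δ hδ.le w ζ
    have : ‖ξ‖ < μ := hξ.trans_le t2
    linarith
  have hμc : 4 * μ ≤ c := by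
    have := min_le_left (c / 4) (η / (16 * C * KB))
    linarith
  have hltc : ‖pt ξ δ w ζ‖ < c := hnorm.trans_le hμc
  refine ⟨hltc, hS.outside _ hltc ?_⟩
  -- estimate of rho0
  rw [rho0_pt P ξ δ w ζ hρ]
  have hPd : P (ξ.1 + ζ) - P ξ.1 ≤ -w.re * δ / 2 := by
    have h1 := (le_abs_self _).trans (hP (ξ.1 + ζ) ξ.1)
    rw [add_sub_cancel_left] at h1
    have h2 : ‖ξ.1 + ζ‖ + ‖ξ.1‖ ≤ 2 * ‖ξ.1‖ + ‖ζ‖ := by
      have := norm_add_le ξ.1 ζ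
      linarith
    have h3 : (‖ξ.1 + ζ‖ + ‖ξ.1‖) ^ (2 * m - 1) ≤ (2 * ‖ξ.1‖ + ‖ζ‖) ^ (2 * m - 1) :=
      pow_le_pow_left₀ (by positivity) h2 _
    have h4 : P (ξ.1 + ζ) - P ξ.1 ≤ CP * ‖ζ‖ * (2 * ‖ξ.1‖ + ‖ζ‖) ^ (2 * m - 1) :=
      h1.trans (by gcongr)
    refine h4.trans ?_
    rcases le_total (2 * ‖ξ.1‖) ‖ζ‖ with hc | hc
    · have h5 : (2 * ‖ξ.1‖ + ‖ζ‖) ^ (2 * m - 1) ≤ (2 * ‖ζ‖) ^ (2 * m - 1) :=
        pow_le_pow_left₀ (by positivity) (by linarith) _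
      have h6 : CP * ‖ζ‖ * (2 * ‖ζ‖) ^ (2 * m - 1) ≤ CP * 2 ^ (2 * m) * ‖ζ‖ ^ (2 * m) := by
        rw [mul_pow]
        have e : ‖ζ‖ ^ (2 * m) = ‖ζ‖ * ‖ζ‖ ^ (2 * m - 1) := by
          rw [← pow_succ']; congr 1; omega
        have e2 : (2 : ℝ) ^ (2 * m) = 2 * 2 ^ (2 * m - 1) := by
          rw [← pow_succ']; congr 1; omega
        rw [e, e2]
        have : 0 ≤ CP * ‖ζ‖ * ‖ζ‖ ^ (2 * m - 1) * 2 ^ (2 * m - 1) := by positivity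
        nlinarith
      calc CP * ‖ζ‖ * (2 * ‖ξ.1‖ + ‖ζ‖) ^ (2 * m - 1)
          ≤ CP * ‖ζ‖ * (2 * ‖ζ‖) ^ (2 * m - 1) := by gcongr
        _ ≤ CP * 2 ^ (2 * m) * ‖ζ‖ ^ (2 * m) := h6
        _ ≤ CP * 2 ^ (2 * m) * (c' * (-w.re) * δ) := by gcongr
        _ = (CP * 2 ^ (2 * m + 1) * c') * (-w.re * δ / 2) := by rw [pow_succ]; ring
        _ ≤ 1 * (-w.re * δ / 2) := by
            apply mul_le_mul_of_nonneg_right hc'; positivity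
        _ = -w.re * δ / 2 := one_mul _
    · have h5 : (2 * ‖ξ.1‖ + ‖ζ‖) ^ (2 * m - 1) ≤ (4 * ‖ξ.1‖) ^ (2 * m - 1) :=
        pow_le_pow_left₀ (by positivity) (by linarith) _
      have h6 : CP * ‖ζ‖ * (4 * ‖ξ.1‖) ^ (2 * m - 1) ≤ CP * (4 * ‖ξ.1‖) ^ (2 * m) := by
        have e : (4 * ‖ξ.1‖) ^ (2 * m) = (4 * ‖ξ.1‖) * (4 * ‖ξ.1‖) ^ (2 * m - 1) := by
          rw [← pow_succ']; congr 1; omega
        rw [e, mul_assoc]
        have : ‖ζ‖ ≤ 4 * ‖ξ.1‖ := hc.trans (by have := norm_nonneg ξ.1; linarith)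
        gcongr
      have h7 : ‖ξ.1‖ ^ (2 * m) ≤ C2 ^ m * (δ * δ) := by
        have h8 : ‖ξ.1‖ ^ 2 ≤ C2 * δ :=
          (pow_le_pow_left₀ (norm_nonneg _) (norm1_le ξ) 2).trans hξ2
        calc ‖ξ.1‖ ^ (2 * m) = (‖ξ.1‖ ^ 2) ^ m := by rw [pow_mul]
          _ ≤ (C2 * δ) ^ m := pow_le_pow_left₀ (by positivity) h8 m
          _ = C2 ^ m * δ ^ m := mul_pow _ _ _
          _ ≤ C2 ^ m * (δ * δ) := by
              have : δ ^ m ≤ δ ^ 2 := pow_le_pow_of_le_one hδ.le hδ1 hm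
              rw [← pow_two]; gcongr
      calc CP * ‖ζ‖ * (2 * ‖ξ.1‖ + ‖ζ‖) ^ (2 * m - 1)
          ≤ CP * ‖ζ‖ * (4 * ‖ξ.1‖) ^ (2 * m - 1) := by gcongr
        _ ≤ CP * (4 * ‖ξ.1‖) ^ (2 * m) := h6
        _ = CP * 4 ^ (2 * m) * ‖ξ.1‖ ^ (2 * m) := by rw [mul_pow]; ring
        _ ≤ CP * 4 ^ (2 * m) * (C2 ^ m * (δ * δ)) := by gcongr
        _ = A * δ * δ := by rw [hA]; ring
        _ ≤ (η / 4) * δ := by
            have : A * δ ≤ η / 4 := by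
              calc A * δ ≤ A * (η / (4 * A)) := by gcongr; exact hδτ.le.trans t4
                _ = η / 4 := by field_simp
            gcongr
        _ ≤ -w.re * δ / 2 := by nlinarith
  -- estimate of the error
  have hW : Wt m (pt ξ δ w ζ) ≤ KB * δ := by
    have h1 := Wt_pt_le m ξ δ hδ.le hδ1 w ζ
    have h2 : ‖ζ‖ ^ (2 * m) ≤ (B + 1) * δ := by
      refine hζ.trans ?_
      have : c' * (-w.re) ≤ B + 1 := by nlinarith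
      gcongr
    have h3 : 3 * (1 + ‖w + 1‖) ^ 2 * δ ≤ 3 * (1 + B) ^ 2 * δ := by gcongr
    calc Wt m (pt ξ δ w ζ) ≤ _ := h1
      _ ≤ 2 * 2 ^ (2 * m) * (C2 * δ) + 3 * (1 + B) ^ 2 * δ + 2 ^ (2 * m) * ((B + 1) * δ) := by
          gcongr
      _ = KB * δ := by rw [hKB]; ring
  have herr : C * ‖pt ξ δ w ζ‖ * Wt m (pt ξ δ w ζ) ≤ η * δ / 4 := by
    have h1 : ‖pt ξ δ w ζ‖ ≤ 4 * (η / (16 * C * KB)) :=
      hnorm.le.trans (by have := min_le_right (c / 4) (η / (16 * C * KB)); linarith)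
    calc C * ‖pt ξ δ w ζ‖ * Wt m (pt ξ δ w ζ) ≤ C * (4 * (η / (16 * C * KB))) * (KB * δ) := by
          apply mul_le_mul _ hW (Wt_nonneg _ _) (by positivity)
          gcongr
      _ = η * δ / 4 := by field_simp; ring
  have hfin : η * δ ≤ -w.re * δ := by
    apply mul_le_mul_of_nonneg_right _ hδ.le; linarith
  have hpos : 0 < η * δ := by positivity
  nlinarith [hPd, herr, hfin, hpos]

end Pool.Agent.W722.Cq
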