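import Pool.Agent.W722.Cq.A7a

/-!
# Project CQ: A7, the holomorphic function on the rectangle
-/

set_option autoImplicit false

open Metric Set Filter Topology Asymptotics

namespace Pool.Agent.W722.Cq

/-- A holomorphic inverse on a ball of an injective holomorphic map. -/
theorem exists_inverse' {n : ℕ} {D : Set (V n)} (hD : IsOpen D) {f : V n → V n}
    (hf : DifferentiableOn ℂ f D) (hinj : Set.InjOn f D) {R : ℝ}
    (hsub : Metric.ball 0 R ⊆ f '' D) :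
    ∃ g : V n → V n, DifferentiableOn ℂ g (Metric.ball 0 R) ∧
      Set.MapsTo g (Metric.ball 0 R) D ∧ ∀ x ∈ D, ‖f x‖ < R → g (f x) = x := by
  have hgmem : ∀ y ∈ f '' D, Function.invFunOn f D y ∈ D ∧ f (Function.invFunOn f D y) = y :=
    fun y hy => ⟨Function.invFunOn_mem hy, Function.invFunOn_eq hy⟩
  refine ⟨Function.invFunOn f D, ?_, fun y hy => (hgmem y (hsub hy)).1, ?_⟩
  · exact Pool.Agent.Helper540.differentiableOn_of_comp rfl hD Metric.isOpen_ball hf hinj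
      (g := id) differentiableOn_id (fun y hy => (hgmem y (hsub hy)).1)
      (fun y hy => (hgmem y (hsub hy)).2)
  · intro x hx hxR
    obtain ⟨p, q⟩ := hgmem _ (Set.mem_image_of_mem f hx)
    exact hinj p hx q

/-- the disc direction -/
noncomputable def e1 (k : ℕ) : EE k := (1, 0, 0)

theorem pt_eq {k : ℕ} (ξ : EE k) (δ : ℝ) (w ζ : ℂ) : pt ξ δ w ζ = pt ξ δ w 0 + ζ • e1 k := by
  unfold pt e1
  simp

/-- the function `φ` -/
noncomputable def phi {n k : ℕ} (g : V n → V n) (Φ : EE k → V n) (ξ : EE k) (δ : ℝ) (w : ℂ) :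
    V n := g (Φ (pt ξ δ w 0))

/-- the function `f` -/
noncomputable def ff {n k : ℕ} (m : ℕ) (g : V n → V n) (Φ : EE k → V n) (ξ : EE k) (δ : ℝ)
    (w : ℂ) : V n :=
  (((δ : ℝ) ^ ((1 : ℝ) / (2 * m)) : ℝ) : ℂ) • fderiv ℂ (fun z => g (Φ z)) (pt ξ δ w 0) (e1 k)

theorem pt_diff {k : ℕ} (ξ : EE k) (δ : ℝ) : Differentiable ℂ (fun w : ℂ => pt ξ δ w 0) := by
  unfold pt
  fun_prop

/-- upper bound at one point from the data `1 - ‖φ‖ ≤ K t` -/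
theorem upper_pt {n k m : ℕ} {D : Set (V n)} {p : V n} {Φ : EE k → V n} {Ψ : V n → EE k}
    {P : ℂ → ℝ} {C c : ℝ} (hS : Sit m D p Φ Ψ P C c) (hK : S_K) {g : V n → V n}
    (hg : DifferentiableOn ℂ g D) (hgm : MapsTo g D (ball 0 1)) {ξ : EE k} {δ t c' K : ℝ}
    (hδ : 0 < δ) (ht : 0 < t) (ht2 : t ≤ 2) (hc' : 0 < c') (hc'1 : c' ≤ 1) (hK0 : 0 < K) {w : ℂ}
    (hin : ∀ ζ : ℂ, ‖ζ‖ ^ (2 * m) ≤ c' * t * δ → Φ (pt ξ δ w ζ) ∈ D)
    (hφ : 1 - ‖phi g Φ ξ δ w‖ ≤ K * t) :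
    ‖ff m g Φ ξ δ w‖ ≤ (2 * Real.sqrt (K / c')) * t ^ ((1 : ℝ) / 4) := by
  have hm : 2 ≤ m := hS.two
  have hmR : (2 : ℝ) ≤ m := by exact_mod_cast hm
  set s : ℝ := (1 : ℝ) / (2 * m) with hs
  have hs0 : 0 < s := by positivity
  have hs4 : s ≤ 1 / 4 := by
    rw [hs]; apply one_div_le_one_div_of_le <;> linarith
  set ρ : ℝ := (c' * t * δ) ^ s with hρ
  have hbase : 0 < c' * t * δ := by positivity
  have hρ0 : 0 < ρ := Real.rpow_pos_of_pos hbase _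
  have hρpow : ρ ^ (2 * m) = c' * t * δ := by
    rw [hρ, ← Real.rpow_natCast, ← Real.rpow_mul hbase.le, hs]
    have : (1 : ℝ) / (2 * m) * ((2 * m : ℕ) : ℝ) = 1 := by push_cast; field_simp
    rw [this, Real.rpow_one]
  have hopen : IsOpen {z : EE k | Φ z ∈ D} := hS.opn.preimage hS.hol.continuous
  have hcomp : DifferentiableOn ℂ (fun z => g (Φ z)) {z : EE k | Φ z ∈ D} :=
    hg.comp (hS.hol.differentiable (by simp)).differentiableOn (fun z hz => hz)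
  have hmem : ∀ ζ ∈ ball (0 : ℂ) ρ, Φ (pt ξ δ w 0 + ζ • e1 k) ∈ D := by
    intro ζ hζ
    rw [← pt_eq]
    apply hin
    rw [← hρpow]
    exact pow_le_pow_left₀ (norm_nonneg _) (by simpa using (mem_ball_zero_iff.1 hζ).le) _
  set ψ : ℂ → V n := fun ζ => g (Φ (pt ξ δ w 0 + ζ • e1 k)) with hψ
  have hψd : DifferentiableOn ℂ ψ (ball 0 ρ) := by
    have : DifferentiableOn ℂ (fun ζ : ℂ => pt ξ δ w 0 + ζ • e1 k) (ball 0 ρ) := by fun_prop
    exact hcomp.comp this (fun ζ hζ => hmem ζ hζ)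
  have hψb : ∀ ζ ∈ ball (0 : ℂ) ρ, ‖ψ ζ‖ ≤ 1 := fun ζ hζ =>
    (mem_ball_zero_iff.1 (hgm (hmem ζ hζ))).le
  have hK1 := hK n ψ ρ hρ0 hψd hψb
  have h0mem : pt ξ δ w 0 ∈ {z : EE k | Φ z ∈ D} := by
    have := hmem 0 (mem_ball_self hρ0)
    simpa using this
  have hderiv : deriv ψ 0 = fderiv ℂ (fun z => g (Φ z)) (pt ξ δ w 0) (e1 k) := by
    have h1 : HasFDerivAt (fun z => g (Φ z)) (fderiv ℂ (fun z => g (Φ z)) (pt ξ δ w 0))
        (pt ξ δ w 0 + (0 : ℂ) • e1 k) := by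
      rw [zero_smul, add_zero]
      exact (hcomp.differentiableAt (hopen.mem_nhds h0mem)).hasFDerivAt
    exact (h1.comp_hasDerivAt (0 : ℂ)
      (Pool.Agent.Helper540.line_hasDerivAt (pt ξ δ w 0) (e1 k) 0)).deriv
  have hψ0 : ψ 0 = phi g Φ ξ δ w := by simp [hψ, phi]
  rw [hderiv, hψ0] at hK1
  set X : ℝ := ‖fderiv ℂ (fun z => g (Φ z)) (pt ξ δ w 0) (e1 k)‖ with hX
  have hX0 : 0 ≤ X := norm_nonneg _
  have hφ1 : ‖phi g Φ ξ δ w‖ ≤ 1 := by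
    rw [← hψ0]; exact hψb 0 (mem_ball_self hρ0)
  have h2 : X ^ 2 * ρ ^ 2 ≤ 2 * (K * t) := by
    have : 1 - ‖phi g Φ ξ δ w‖ ^ 2 ≤ 2 * (1 - ‖phi g Φ ξ δ w‖) := by
      nlinarith [norm_nonneg (phi g Φ ξ δ w)]
    linarith
  have hff : ‖ff m g Φ ξ δ w‖ = δ ^ s * X := by
    unfold ff
    rw [norm_smul, Complex.norm_real, Real.norm_of_nonneg (by positivity)]
  have hρs : ρ = c' ^ s * t ^ s * δ ^ s := by
    rw [hρ, Real.mul_rpow (by positivity) hδ.le, Real.mul_rpow hc'.le ht.le]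
  -- square of the norm
  have h3 : (δ ^ s * X) ^ 2 * (c' ^ s * t ^ s) ^ 2 ≤ 2 * (K * t) := by
    have : (δ ^ s * X) ^ 2 * (c' ^ s * t ^ s) ^ 2 = X ^ 2 * ρ ^ 2 := by rw [hρs]; ring
    rw [this]; exact h2
  have hcs : Real.sqrt c' ≤ c' ^ s := by
    rw [Real.sqrt_eq_rpow]
    exact Real.rpow_le_rpow_of_exponent_ge hc' hc'1 (by linarith)
  have hts : (t ^ s) ^ 2 * t ^ ((1 : ℝ) / 2) * 2 ≥ t := by
    have e : (t ^ s) ^ 2 * t ^ ((1 : ℝ) / 2) = t ^ (2 * s + 1 / 2) := by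
      rw [← Real.rpow_natCast, ← Real.rpow_mul ht.le, ← Real.rpow_add ht]
      congr 1; push_cast; ring
    rw [e]
    rcases le_total t 1 with h | h
    · have : t ^ (1 : ℝ) ≤ t ^ (2 * s + 1 / 2) :=
        Real.rpow_le_rpow_of_exponent_ge ht h (by linarith)
      rw [Real.rpow_one] at this
      linarith
    · have : 1 ≤ t ^ (2 * s + 1 / 2) := Real.one_le_rpow h (by linarith)
      linarith
  have hsq : (δ ^ s * X) ^ 2 ≤ (4 * (K / c')) * t ^ ((1 : ℝ) / 2) := by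
    have hc2 : c' ≤ (c' ^ s) ^ 2 := by
      calc c' = Real.sqrt c' ^ 2 := (Real.sq_sqrt hc'.le).symm
        _ ≤ _ := pow_le_pow_left₀ (Real.sqrt_nonneg _) hcs 2
    have hts0 : 0 < (t ^ s) ^ 2 := by positivity
    have ht12 : 0 < t ^ ((1 : ℝ) / 2) := by positivity
    have h4 : (δ ^ s * X) ^ 2 * (c' * (t ^ s) ^ 2) ≤ 2 * (K * t) := by
      refine le_trans ?_ h3
      rw [mul_pow (c' ^ s) (t ^ s) 2]
      gcongr
    have h5 : (δ ^ s * X) ^ 2 * (c' * (t ^ s) ^ 2) ≤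
        (4 * (K / c')) * t ^ ((1 : ℝ) / 2) * (c' * (t ^ s) ^ 2) := by
      refine h4.trans ?_
      have : (4 * (K / c')) * t ^ ((1 : ℝ) / 2) * (c' * (t ^ s) ^ 2) =
          2 * K * ((t ^ s) ^ 2 * t ^ ((1 : ℝ) / 2) * 2) := by field_simp; ring
      rw [this]
      have := mul_le_mul_of_nonneg_left hts (by positivity : (0 : ℝ) ≤ 2 * K)
      linarith
    exact le_of_mul_le_mul_right h5 (by positivity)
  rw [hff]
  have h6 : (2 * Real.sqrt (K / c') * t ^ ((1 : ℝ) / 4)) ^ 2 =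
      (4 * (K / c')) * t ^ ((1 : ℝ) / 2) := by
    have e : (t ^ ((1 : ℝ) / 4)) ^ 2 = t ^ ((1 : ℝ) / 2) := by
      rw [← Real.rpow_natCast, ← Real.rpow_mul ht.le]; norm_num
    rw [mul_pow, mul_pow, Real.sq_sqrt (by positivity), e]; ring
  exact abs_le_of_sq_le_sq' (by rw [h6]; exact hsq) (by positivity) |>.2

/-- lower bound at `-1` -/
theorem lower_pt {n k m : ℕ} {D : Set (V n)} {p : V n} {Φ : EE k → V n} {Ψ : V n → EE k}
    {P : ℂ → ℝ} {C c : ℝ} (hS : Sit m D p Φ Ψ P C c) {g h : V n → V n}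
    (hg : DifferentiableOn ℂ g D) {ξ : EE k} {δ C4 ε : ℝ} (hξ : ‖ξ‖ < c)
    (hδ : 0 < δ) (hC4 : 1 ≤ C4) (hε : 0 < ε) (hε2 : ε < 1 / 2) (hξD : Φ ξ ∈ D) (hg0 : g (Φ ξ) = 0)
    (hh : DifferentiableOn ℂ h (ball 0 (1 - ε))) (hinv : ∀ x ∈ D, ‖g x‖ < 1 - ε → h (g x) = x)
    (hloc : ∀ ζ : V n, ‖ζ‖ ≤ 1 / 4 → ‖Ψ (h ζ)‖ < c ∧ Φ (Ψ (h ζ)) = h ζ ∧
      Wt m (Ψ (h ζ)) ≤ C4 * δ) :
    1 ≤ 16 * C4 * ‖ff m g Φ ξ δ (-1)‖ := by
  have hm : 2 ≤ m := hS.two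
  have hmR : (2 : ℝ) ≤ m := by exact_mod_cast hm
  set s : ℝ := (1 : ℝ) / (2 * m) with hs
  have hs0 : 0 < s := by positivity
  have hs1 : s ≤ 1 := by
    rw [hs, div_le_one (by positivity)]; linarith
  set H : V n → ℂ := fun ζ => (Ψ (h ζ)).1 with hH
  have hHd : DifferentiableOn ℂ H (ball 0 (1 / 4)) := by
    intro ζ hζ
    have hζ4 : ‖ζ‖ < 1 / 4 := mem_ball_zero_iff.1 hζ
    obtain ⟨h1, h2, _⟩ := hloc ζ hζ4.le
    have h3 : DifferentiableAt ℂ h ζ :=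
      hh.differentiableAt (isOpen_ball.mem_nhds (mem_ball_zero_iff.2 (by linarith)))
    have h4 : DifferentiableAt ℂ Ψ (h ζ) := by
      rw [← h2]; exact (hS.inv1 _ h1).2.2
    have h5 : DifferentiableAt ℂ (fun ζ => Ψ (h ζ)) ζ := h4.comp ζ h3
    exact h5.fst.differentiableWithinAt
  have hHb : ∀ ζ ∈ ball (0 : V n) (1 / 4), ‖H ζ‖ ≤ C4 * δ ^ s := by
    intro ζ hζ
    obtain ⟨_, _, h3⟩ := hloc ζ (mem_ball_zero_iff.1 hζ).le
    have h4 : ‖H ζ‖ ^ (2 * m) ≤ C4 * δ := by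
      refine le_trans ?_ h3
      unfold Wt
      have : 0 ≤ |(Ψ (h ζ)).2.2.re| + (Ψ (h ζ)).2.2.im ^ 2 + ‖(Ψ (h ζ)).2.1‖ ^ 2 := by positivity
      simp only [hH]
      linarith
    have h5 : C4 * δ ≤ (C4 * δ ^ s) ^ (2 * m) := by
      rw [mul_pow]
      have e : (δ ^ s) ^ (2 * m) = δ := by
        rw [← Real.rpow_natCast, ← Real.rpow_mul hδ.le, hs]
        have : (1 : ℝ) / (2 * m) * ((2 * m : ℕ) : ℝ) = 1 := by push_cast; field_simp
        rw [this, Real.rpow_one]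
      rw [e]
      have : C4 ≤ C4 ^ (2 * m) := le_self_pow₀ hC4 (by omega)
      gcongr
    exact le_of_pow_le_pow_left₀ (by omega : 2 * m ≠ 0) (by positivity) (h4.trans h5)
  have hder : ‖fderiv ℂ H 0‖ ≤ 4 * (C4 * δ ^ s) / (1 / 4) :=
    Pool.Agent.Helper540.norm_fderiv_le_half hHd hHb (mem_ball_self (by norm_num))
  -- chain rule
  have hopen : IsOpen {z : EE k | Φ z ∈ D} := hS.opn.preimage hS.hol.continuous
  have hcomp : DifferentiableOn ℂ (fun z => g (Φ z)) {z : EE k | Φ z ∈ D} :=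
    hg.comp (hS.hol.differentiable (by simp)).differentiableOn (fun z hz => hz)
  have hGa : DifferentiableAt ℂ (fun z => g (Φ z)) ξ :=
    hcomp.differentiableAt (hopen.mem_nhds hξD)
  set Vv : V n := fderiv ℂ (fun z => g (Φ z)) ξ (e1 k) with hVv
  have hG : HasDerivAt (fun t : ℂ => g (Φ (ξ + t • e1 k))) Vv 0 := by
    have h1 : HasFDerivAt (fun z => g (Φ z)) (fderiv ℂ (fun z => g (Φ z)) ξ)
        (ξ + (0 : ℂ) • e1 k) := by
      rw [zero_smul, add_zero]; exact hGa.hasFDerivAt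
    exact h1.comp_hasDerivAt (0 : ℂ) (Pool.Agent.Helper540.line_hasDerivAt ξ (e1 k) 0)
  have hH0 : HasFDerivAt H (fderiv ℂ H 0) (g (Φ (ξ + (0 : ℂ) • e1 k))) := by
    rw [zero_smul, add_zero, hg0]
    exact (hHd.differentiableAt (isOpen_ball.mem_nhds (mem_ball_self (by norm_num)))).hasFDerivAt
  have hchain : HasDerivAt (fun t : ℂ => H (g (Φ (ξ + t • e1 k)))) (fderiv ℂ H 0 Vv) 0 :=
    HasFDerivAt.comp_hasDerivAt (f := fun t : ℂ => g (Φ (ξ + t • e1 k))) (0 : ℂ) hH0 hG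
  have heq : (fun t : ℂ => H (g (Φ (ξ + t • e1 k)))) =ᶠ[𝓝 0] fun t => ξ.1 + t := by
    have hline : Tendsto (fun t : ℂ => ξ + t • e1 k) (𝓝 0) (𝓝 ξ) := by
      have : Continuous (fun t : ℂ => ξ + t • e1 k) := by fun_prop
      have h2 := this.tendsto 0
      simpa using h2
    have hev1 : ∀ᶠ z in 𝓝 ξ, Φ z ∈ D := hopen.mem_nhds hξD
    have hev2 : ∀ᶠ z in 𝓝 ξ, ‖z‖ < c := continuousAt_id.norm.eventually_lt continuousAt_const hξ
    have hev3 : ∀ᶠ z in 𝓝 ξ, ‖g (Φ z)‖ < 1 - ε := by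
      apply hGa.continuousAt.norm.eventually_lt continuousAt_const
      rw [hg0, norm_zero]; linarith
    filter_upwards [hline.eventually (hev1.and (hev2.and hev3))] with t ht
    obtain ⟨h1, h2, h3⟩ := ht
    simp only [hH]
    rw [hinv _ h1 h3, (hS.inv1 _ h2).1]
    simp [e1]
  have hone : fderiv ℂ H 0 Vv = 1 := by
    have h1 : HasDerivAt (fun t : ℂ => ξ.1 + t) 1 0 := by
      simpa using (hasDerivAt_id (0 : ℂ)).const_add ξ.1
    exact (hchain.congr_of_eventuallyEq heq.symm).unique h1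
  have h7 : (1 : ℝ) ≤ 16 * (C4 * δ ^ s) * ‖Vv‖ := by
    have h8 := (fderiv ℂ H 0).le_opNorm Vv
    rw [hone, norm_one] at h8
    calc (1 : ℝ) ≤ ‖fderiv ℂ H 0‖ * ‖Vv‖ := h8
      _ ≤ (4 * (C4 * δ ^ s) / (1 / 4)) * ‖Vv‖ := by gcongr
      _ = 16 * (C4 * δ ^ s) * ‖Vv‖ := by ring
  have hff : ‖ff m g Φ ξ δ (-1)‖ = δ ^ s * ‖Vv‖ := by
    unfold ff
    rw [norm_smul, Complex.norm_real, Real.norm_of_nonneg (by positivity), pt_zero]
  rw [hff]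
  linarith

end Pool.Agent.W722.Cq
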