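import Mathlib

/-!
# Squeezing function at corank-one boundary points: definitions and lemma statements

Project CQ (MP_0e9e72_an, frozen statement S03821), owner helper722.
-/

set_option autoImplicit false

open Metric Set Filter Topology Asymptotics

namespace Pool.Agent.W722.Cq

/-- complex n-space -/
abbrev V (n : ℕ) := EuclideanSpace ℂ (Fin n)

/-- model space: `(x, y, w)` with `y` in complex k-space -/
abbrev EE (k : ℕ) := ℂ × V k × ℂ

/-- four times the Levi form of `f` at `z` in direction `v` on complex n-space -/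
noncomputable def Lv {n : ℕ} (f : V n → ℝ) (z v : V n) : ℝ :=
  fderiv ℝ (fderiv ℝ f) z v v + fderiv ℝ (fderiv ℝ f) z (Complex.I • v) (Complex.I • v)

/-- four times the Levi form on the model space -/
noncomputable def LvE {k : ℕ} (f : EE k → ℝ) (z v : EE k) : ℝ :=
  fderiv ℝ (fderiv ℝ f) z v v + fderiv ℝ (fderiv ℝ f) z (Complex.I • v) (Complex.I • v)

/-- the Laplacian of a function on the complex plane -/
noncomputable def Lap (f : ℂ → ℝ) (x : ℂ) : ℝ :=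
  fderiv ℝ (fderiv ℝ f) x 1 1 + fderiv ℝ (fderiv ℝ f) x Complex.I Complex.I

/-- homogeneous real polynomial of degree `d` in `x`, `conj x` without pure terms -/
noncomputable def Hm (d : ℕ) (c : ℕ → ℂ) (x : ℂ) : ℝ :=
  (∑ a ∈ Finset.Ioo 0 d, c a * x ^ a * (starRingEnd ℂ x) ^ (d - a)).re

/-- mixed real polynomial: only terms divisible by `x * conj x` -/
noncomputable def Mx (j : ℕ) (c : ℕ → ℕ → ℂ) (x : ℂ) : ℝ :=
  (∑ a ∈ Finset.Icc 1 j, ∑ b ∈ Finset.Icc 1 j, c a b * x ^ a * (starRingEnd ℂ x) ^ b).re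

/-- `f` is a mixed polynomial up to an error of order `j + 1` -/
def Pure (j : ℕ) (f : ℂ → ℝ) : Prop :=
  ∃ c : ℕ → ℕ → ℂ, (fun x => f x - Mx j c x) =O[𝓝 (0 : ℂ)] (fun x => ‖x‖ ^ (j + 1))

/-- the polynomial of the normal form: homogeneous of degree `2m`, no pure terms, subharmonic,
not identically zero -/
structure Pol (m : ℕ) (P : ℂ → ℝ) : Prop where
  form : ∃ c : ℕ → ℂ, P = Hm (2 * m) c
  sub : ∀ x : ℂ, 0 ≤ Lap P x
  nz : ∃ x : ℂ, P x ≠ 0

/-- the model defining function `Re w + ‖y‖² + P x` -/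
noncomputable def rho0 {k : ℕ} (P : ℂ → ℝ) (z : EE k) : ℝ := z.2.2.re + ‖z.2.1‖ ^ 2 + P z.1

/-- the weight -/
noncomputable def Wt {k : ℕ} (m : ℕ) (z : EE k) : ℝ :=
  |z.2.2.re| + z.2.2.im ^ 2 + ‖z.2.1‖ ^ 2 + ‖z.1‖ ^ (2 * m)

/-- pseudoconvexity inequality near the point `p` of complex n-space -/
def Psc {n : ℕ} (r : V n → ℝ) (p : V n) : Prop :=
  ∃ K ε : ℝ, 0 < K ∧ 0 < ε ∧ ∀ z : V n, ‖z - p‖ < ε → ∀ X : V n,
    -(K * |r z| * ‖X‖ ^ 2) - K * ‖X‖ * (|fderiv ℝ r z X| + |fderiv ℝ r z (Complex.I • X)|)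
      ≤ Lv r z X

/-- pseudoconvexity inequality near the origin of the model space -/
def PscE {k : ℕ} (r : EE k → ℝ) : Prop :=
  ∃ K ε : ℝ, 0 < K ∧ 0 < ε ∧ ∀ z : EE k, ‖z‖ < ε → ∀ X : EE k,
    -(K * |r z| * ‖X‖ ^ 2) - K * ‖X‖ * (|fderiv ℝ r z X| + |fderiv ℝ r z (Complex.I • X)|)
      ≤ LvE r z X

/-- the function `r` on the model space is normalised at the origin to second order in the
directions `(y, Im w)` -/
structure Nrm {k : ℕ} (r : EE k → ℝ) : Prop where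
  smooth : ContDiff ℝ ((⊤ : ℕ∞) : WithTop ℕ∞) r
  zero : r 0 = 0
  d1 : ∀ z : EE k, fderiv ℝ r 0 z = z.2.2.re
  d2 : ∀ (y : V k) (σ : ℝ),
    fderiv ℝ (fderiv ℝ r) 0 (0, y, (σ : ℂ) * Complex.I) (0, y, (σ : ℂ) * Complex.I)
      = 2 * ‖y‖ ^ 2

/-- restriction to the curve `x ↦ (x, 0, 0)` -/
noncomputable def cur {k : ℕ} (r : EE k → ℝ) (x : ℂ) : ℝ := r (x, 0, 0)

/-- derivative in the direction `(0, y, iσ)` along the curve `x ↦ (x, 0, 0)` -/
noncomputable def Rc {k : ℕ} (r : EE k → ℝ) (y : V k) (σ : ℝ) (x : ℂ) : ℝ :=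
  fderiv ℝ r (x, 0, 0) (0, y, (σ : ℂ) * Complex.I)

end Pool.Agent.W722.Cq
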