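import Pool.Agent.W722.Cq.Stm

/-!
# Project CQ: final assembly of S03821 from the normal form and the main argument
-/

set_option autoImplicit false

open Metric Set Filter Topology Asymptotics

namespace Pool.Agent.W722.Cq

theorem main (hNF : S_NF) (hPAR : S_PAR) (hINV : S_INV) (hSEQ : S_SEQ) (hA7 : S_A7) (hF : S_F) :
  ∀ n : ℕ, 3 ≤ n →
  ∀ D : Set (EuclideanSpace ℂ (Fin n)), IsOpen D → IsConnected D → Bornology.IsBounded D →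
  ∀ p ∈ frontier D,
  ∀ U : Set (EuclideanSpace ℂ (Fin n)), ∀ r : EuclideanSpace ℂ (Fin n) → ℝ,
    IsOpen U → p ∈ U → ContDiff ℝ ((⊤ : ℕ∞) : WithTop ℕ∞) r →
    (∀ z ∈ U, fderiv ℝ r z ≠ 0) →
    D ∩ U = {z | z ∈ U ∧ r z < 0} →
    (∃ W : Submodule ℂ (EuclideanSpace ℂ (Fin n)), n - 2 ≤ Module.finrank ℂ W ∧
      ∀ v ∈ W, v ≠ 0 → fderiv ℝ r p v = 0 ∧ fderiv ℝ r p (Complex.I • v) = 0 ∧
        0 < fderiv ℝ (fderiv ℝ r) p v v
              + fderiv ℝ (fderiv ℝ r) p (Complex.I • v) (Complex.I • v)) →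
    (∀ q ∈ U, r q = 0 → ∀ v : EuclideanSpace ℂ (Fin n),
        fderiv ℝ r q v = 0 → fderiv ℝ r q (Complex.I • v) = 0 →
        0 ≤ fderiv ℝ (fderiv ℝ r) q v v
              + fderiv ℝ (fderiv ℝ r) q (Complex.I • v) (Complex.I • v)) →
    (∀ q ∈ U, r q = 0 → ∃ M : ℕ, ∀ γ : ℂ → EuclideanSpace ℂ (Fin n), ∀ ε : ℝ, 0 < ε →
        DifferentiableOn ℂ γ (Metric.ball 0 ε) → γ 0 = q →
        ∀ m : ℕ, 1 ≤ m → iteratedDeriv m γ 0 ≠ 0 →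
        (∀ j : ℕ, 1 ≤ j → j < m → iteratedDeriv j γ 0 = 0) →
        ∃ k : ℕ, k ≤ M * m ∧ iteratedFDeriv ℝ k (r ∘ γ) 0 ≠ 0) →
    (∃ z : ℕ → EuclideanSpace ℂ (Fin n), (∀ ν, z ν ∈ D) ∧
      Filter.Tendsto z Filter.atTop (nhds p) ∧
      (∃ C : ℝ, 0 < C ∧ ∀ᶠ ν in Filter.atTop,
        ‖z ν - p‖ ^ 2 - (fderiv ℝ r p (z ν - p)) ^ 2 / ‖fderiv ℝ r p‖ ^ 2
          ≤ C ^ 2 * Metric.infDist (z ν) (frontier D)) ∧
      ∀ ε : ℝ, 0 < ε → ∀ᶠ ν in Filter.atTop,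
        ∃ F : EuclideanSpace ℂ (Fin n) → EuclideanSpace ℂ (Fin n),
          DifferentiableOn ℂ F D ∧ Set.InjOn F D ∧ Set.MapsTo F D (Metric.ball 0 1) ∧
          F (z ν) = 0 ∧ Metric.ball 0 (1 - ε) ⊆ F '' D) →
    ∀ v : EuclideanSpace ℂ (Fin n), v ≠ 0 → fderiv ℝ r p v = 0 →
      fderiv ℝ r p (Complex.I • v) = 0 →
      0 < fderiv ℝ (fderiv ℝ r) p v v
            + fderiv ℝ (fderiv ℝ r) p (Complex.I • v) (Complex.I • v) := by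
  intro n hn D hD _ hDb p hp U r hU hpU hr hdr hDU hW hpsc hft hseq v hv hv1 hv2
  by_contra hcon
  push Not at hcon
  obtain ⟨W, hWdim, hWpos⟩ := hW
  obtain ⟨z, hzD, hzp, ⟨C, hC, hpar⟩, hsq⟩ := hseq
  -- r p = 0
  have hrp : r p = 0 := by
    have hcont : ContinuousAt r p := hr.continuous.continuousAt
    rw [hD.frontier_eq] at hp
    apply le_antisymm
    · by_contra hc
      push Not at hc
      have h3 : ∀ᶠ y in 𝓝 p, 0 < r y ∧ y ∈ U :=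
        (hcont.eventually_const_lt hc).and (hU.mem_nhds hpU)
      obtain ⟨y, hyD, hy⟩ := (mem_closure_iff_frequently.1 hp.1).and_eventually h3 |>.exists
      have : y ∈ D ∩ U := ⟨hyD, hy.2⟩
      rw [hDU] at this
      linarith [hy.1, this.2]
    · by_contra hc
      push Not at hc
      have : p ∈ D ∩ U := by rw [hDU]; exact ⟨hpU, hc⟩
      exact hp.2 this.1
  -- normal form
  obtain ⟨k, m, Φ, P, hnf⟩ := hNF n U r p W v (by omega) hU hpU hr hrp (hdr p hpU) hWdim hWpos hv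
    hv1 hv2 hcon hpsc (by
      obtain ⟨M, hM⟩ := hft p hpU hrp
      refine ⟨M, fun γ hγ hγ0 hγ1 => ?_⟩
      obtain ⟨k, hk1, hk2⟩ := hM γ 1 one_pos hγ.differentiableOn hγ0 1 le_rfl
        (by rw [iteratedDeriv_one]; exact hγ1) (fun j h1 h2 => by omega)
      exact ⟨k, by simpa using hk1, hk2⟩)
  obtain ⟨Ψ, C', c, hS⟩ := hINV n k m D U r p Φ P hnf hD hDb hU hpU hDU
  obtain ⟨K, τ1, hK, hτ1, hP1⟩ := hPAR n D U r p C hD hU hpU hp hr (hdr p hpU) hDU hC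
  obtain ⟨C2, hC2, hP2⟩ := hSEQ n k m D r p Φ Ψ P C' c K hr hnf hS hK
  obtain ⟨C3, hC3, hP3⟩ := hA7 n k m D p Φ Ψ P C' c C2 hS hC2
  obtain ⟨η, hη, hη1, hP4⟩ := hF n C3 (1 / C3) hC3 (by positivity)
  obtain ⟨τ, hτ, hP5⟩ := hP3 η hη hη1
  obtain ⟨τ', hτ', hP6⟩ := hP2 τ hτ
  have hev : ∀ᶠ ν in atTop, ‖z ν - p‖ < min τ1 τ' := by
    have : Tendsto (fun ν => ‖z ν - p‖) atTop (𝓝 0) := by
      have h := (hzp.sub_const p).norm
      simpa using h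
    exact this.eventually (gt_mem_nhds (lt_min hτ1 hτ'))
  obtain ⟨ν, hν1, hν2, F, hF1, hF2, hF3, hF4, hF5⟩ :=
    (hev.and (hpar.and (hsq (min (τ / 2) (1 / 2)) (by positivity)))).exists
  obtain ⟨hr1, hr2⟩ := hP1 (z ν) (hzD ν) (hν1.trans_le (min_le_left _ _)) hν2
  obtain ⟨a1, a2, a3, a4, a5, a6⟩ := hP6 (z ν) (hν1.trans_le (min_le_right _ _)) hr1 hr2
  obtain ⟨f, hf1, hf2, hf3⟩ := hP5 (Ψ (z ν)) (-(rho0 P (Ψ (z ν)))) (min (τ / 2) (1 / 2)) F a3 a4 a2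
    a5 a6 (by ring) (by positivity) ((min_le_left _ _).trans_lt (by linarith)) hF1 hF2 hF3
    (by rw [a1]; exact hF4) hF5
  have h1 := hP4 f hf1 hf2
  have h2 : C3 * ‖f (-1)‖ < C3 * (1 / C3) := mul_lt_mul_of_pos_left h1 hC3
  rw [mul_one_div_cancel hC3.ne'] at h2
  linarith

end Pool.Agent.W722.Cq
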